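import Mathlib

set_option autoImplicit false

/-! Averages of products of unimodular numbers over the sets with a given number of elements (helper92). -/

namespace Pool.Agent.K4H92.SP
open Finset

/-- the sum over the `r`-element subsets of `A` of the products of `z` -/
noncomputable def PS (z : ℕ → ℂ) (A : Finset ℕ) (r : ℕ) : ℂ := ∑ T ∈ A.powersetCard r, ∏ i ∈ T, z i

lemma PS_swap1 (z : ℕ → ℂ) (A : Finset ℕ) (r : ℕ) :
    ((r + 1 : ℕ) : ℂ) * ((A.card - (r + 1) : ℕ) : ℂ) * PS z A (r + 1) =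
      ∑ x ∈ A.offDiag, z x.1 * PS z (A \ {x.1, x.2}) r := by
  classical
  unfold PS
  have h1 : ((r + 1 : ℕ) : ℂ) * ((A.card - (r + 1) : ℕ) : ℂ) * ∑ T ∈ A.powersetCard (r + 1), ∏ i ∈ T, z i =
      ∑ y ∈ (A.powersetCard (r + 1)).sigma (fun T => T ×ˢ (A \ T)), ∏ i ∈ y.1, z i := by
    rw [Finset.sum_sigma, mul_sum]
    apply sum_congr rfl
    intro T hT
    rw [mem_powersetCard] at hT
    simp only
    rw [sum_const, card_product, card_sdiff_of_subset hT.1, hT.2, nsmul_eq_mul]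
    push_cast
    ring
  rw [h1]
  have h2 : ∑ x ∈ A.offDiag, z x.1 * ∑ T ∈ (A \ {x.1, x.2}).powersetCard r, ∏ i ∈ T, z i =
      ∑ y ∈ A.offDiag.sigma (fun x => (A \ {x.1, x.2}).powersetCard r), z y.1.1 * ∏ i ∈ y.2, z i := by
    rw [Finset.sum_sigma]
    apply sum_congr rfl
    intro x _
    rw [mul_sum]
  rw [h2]
  refine sum_bij' (fun y _ => (⟨(y.2.1, y.2.2), y.1.erase y.2.1⟩ : Σ _ : ℕ × ℕ, Finset ℕ))
    (fun y _ => (⟨insert y.1.1 y.2, (y.1.1, y.1.2)⟩ : Σ _ : Finset ℕ, ℕ × ℕ)) ?_ ?_ ?_ ?_ ?_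
  · rintro ⟨T, i, j⟩ hy
    simp only [mem_sigma, mem_powersetCard, mem_product, mem_sdiff, mem_offDiag] at hy ⊢
    obtain ⟨⟨hTA, hTc⟩, hi, hj, hjT⟩ := hy
    refine ⟨⟨hTA hi, hj, fun h => hjT (h ▸ hi)⟩, ?_, ?_⟩
    · intro a ha
      rw [mem_erase] at ha
      rw [mem_sdiff, mem_insert, mem_singleton]
      refine ⟨hTA ha.2, ?_⟩
      rintro (h | h)
      · exact ha.1 h
      · exact hjT (h ▸ ha.2)
    · rw [card_erase_of_mem hi, hTc]
      omega
  · rintro ⟨⟨i, j⟩, T⟩ hy
    simp only [mem_sigma, mem_powersetCard, mem_product, mem_sdiff, mem_offDiag] at hy ⊢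
    obtain ⟨⟨hi, hj, hij⟩, hTA, hTc⟩ := hy
    have hiT : i ∉ T := fun h => by
      have := hTA h
      rw [mem_sdiff, mem_insert] at this
      exact this.2 (Or.inl rfl)
    have hjT : j ∉ T := fun h => by
      have := hTA h
      rw [mem_sdiff, mem_insert, mem_singleton] at this
      exact this.2 (Or.inr rfl)
    refine ⟨⟨?_, ?_⟩, mem_insert_self _ _, hj, ?_⟩
    · intro a ha
      rw [mem_insert] at ha
      rcases ha with rfl | ha
      · exact hi
      · exact (mem_sdiff.1 (hTA ha)).1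
    · rw [card_insert_of_notMem hiT, hTc]
    · rw [mem_insert]
      rintro (h | h)
      · exact hij h.symm
      · exact hjT h
  · rintro ⟨T, i, j⟩ hy
    simp only [mem_sigma, mem_powersetCard, mem_product, mem_sdiff] at hy
    simp only [insert_erase hy.2.1]
  · rintro ⟨⟨i, j⟩, T⟩ hy
    simp only [mem_sigma, mem_powersetCard, mem_offDiag] at hy
    have hiT : i ∉ T := fun h => by
      have := hy.2.1 h
      rw [mem_sdiff, mem_insert] at this
      exact this.2 (Or.inl rfl)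
    simp only [erase_insert hiT]
  · rintro ⟨T, i, j⟩ hy
    simp only [mem_sigma, mem_powersetCard, mem_product, mem_sdiff] at hy
    simp only
    rw [mul_prod_erase _ _ hy.2.1]

lemma PS_swap (z : ℕ → ℂ) (A : Finset ℕ) (r : ℕ) :
    2 * (((r + 1 : ℕ) : ℂ) * ((A.card - (r + 1) : ℕ) : ℂ) * PS z A (r + 1)) =
      ∑ x ∈ A.offDiag, (z x.1 + z x.2) * PS z (A \ {x.1, x.2}) r := by
  classical
  have h1 := PS_swap1 z A r
  have h2 : ∑ x ∈ A.offDiag, z x.2 * PS z (A \ {x.1, x.2}) r =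
      ∑ x ∈ A.offDiag, z x.1 * PS z (A \ {x.1, x.2}) r := by
    refine sum_bij' (fun x _ => (x.2, x.1)) (fun x _ => (x.2, x.1)) ?_ ?_ ?_ ?_ ?_
    · rintro ⟨i, j⟩ h
      rw [mem_offDiag] at h ⊢
      exact ⟨h.2.1, h.1, fun h' => h.2.2 h'.symm⟩
    · rintro ⟨i, j⟩ h
      rw [mem_offDiag] at h ⊢
      exact ⟨h.2.1, h.1, fun h' => h.2.2 h'.symm⟩
    · rintro ⟨i, j⟩ _
      rfl
    · rintro ⟨i, j⟩ _
      rfl
    · rintro ⟨i, j⟩ _
      simp only
      rw [Finset.pair_comm]
  simp only [add_mul, sum_add_distrib]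
  rw [h2, ← h1]
  ring

lemma choose_id (m r : ℕ) (hr : r ≤ m) :
    (m + 2) * (m + 1) * m.choose r = (r + 1) * (m + 1 - r) * (m + 2).choose (r + 1) := by
  have h1 := Nat.add_one_mul_choose_eq (m + 1) r
  have h2 := Nat.choose_mul_succ_eq m r
  calc (m + 2) * (m + 1) * m.choose r = (m + 2) * (m.choose r * (m + 1)) := by ring
    _ = (m + 2) * ((m + 1).choose r * (m + 1 - r)) := by rw [h2]
    _ = ((m + 1 + 1) * (m + 1).choose r) * (m + 1 - r) := by ring
    _ = ((m + 1 + 1).choose (r + 1) * (r + 1)) * (m + 1 - r) := by rw [h1]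
    _ = _ := by ring

/-- the averages decay when most pairs of values are not equal in every large subset -/
lemma PS_le (z : ℕ → ℂ) (hz : ∀ i, ‖z i‖ = 1) (lam : ℝ) (hlam : 0 ≤ lam) : ∀ (k : ℕ) (B : Finset ℕ) (r : ℕ),
    k ≤ r → r + k ≤ B.card →
    (∀ B' ⊆ B, B.card ≤ B'.card + 2 * k →
      ∑ x ∈ B'.offDiag, ‖z x.1 + z x.2‖ ≤ 2 * lam * (B'.card * (B'.card - 1))) →
    ‖PS z B r‖ ≤ lam ^ k * B.card.choose r := by
  intro k
  induction k with
  | zero =>
    intro B r _ _ _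
    unfold PS
    refine (norm_sum_le _ _).trans ?_
    rw [pow_zero, one_mul, ← card_powersetCard, ← nsmul_one, ← Finset.sum_const]
    apply sum_le_sum
    intro T _
    rw [norm_prod]
    exact (prod_eq_one fun i _ => hz i).le
  | succ k ih =>
    intro B r hr hB hyp
    obtain ⟨r', rfl⟩ : ∃ r', r = r' + 1 := ⟨r - 1, by omega⟩
    obtain ⟨m, hm⟩ : ∃ m, B.card = m + 2 := ⟨B.card - 2, by omega⟩
    have h1 := PS_swap z B r'
    have h2 := congrArg norm h1
    rw [norm_mul, norm_mul, norm_mul] at h2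
    simp only [Complex.norm_natCast, Complex.norm_ofNat] at h2
    have hstep : ∀ x ∈ B.offDiag, ‖PS z (B \ {x.1, x.2}) r'‖ ≤ lam ^ k * m.choose r' := by
      rintro ⟨i, j⟩ hx
      rw [mem_offDiag] at hx
      simp only at hx ⊢
      have hsub : ({i, j} : Finset ℕ) ⊆ B := by
        intro a ha
        rw [mem_insert, mem_singleton] at ha
        rcases ha with rfl | rfl
        · exact hx.1
        · exact hx.2.1
      have hc : (B \ {i, j}).card = m := by
        rw [card_sdiff_of_subset hsub, card_pair hx.2.2, hm]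
        omega
      have h3 := ih (B \ {i, j}) r' (by omega) (by rw [hc]; omega) (by
        intro B' hB' hcard
        apply hyp B' (hB'.trans sdiff_subset)
        rw [hc] at hcard
        omega)
      rw [hc] at h3
      exact h3
    have h3 : ‖∑ x ∈ B.offDiag, (z x.1 + z x.2) * PS z (B \ {x.1, x.2}) r'‖ ≤
        (2 * lam * (B.card * (B.card - 1))) * (lam ^ k * m.choose r') := by
      refine (norm_sum_le _ _).trans ?_
      calc ∑ x ∈ B.offDiag, ‖(z x.1 + z x.2) * PS z (B \ {x.1, x.2}) r'‖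
          ≤ ∑ x ∈ B.offDiag, ‖z x.1 + z x.2‖ * (lam ^ k * m.choose r') := by
            apply sum_le_sum
            intro x hx
            rw [norm_mul]
            exact mul_le_mul_of_nonneg_left (hstep x hx) (norm_nonneg _)
        _ = (∑ x ∈ B.offDiag, ‖z x.1 + z x.2‖) * (lam ^ k * m.choose r') := by rw [sum_mul]
        _ ≤ _ := by
            apply mul_le_mul_of_nonneg_right (hyp B Subset.rfl (by omega)) (by positivity)
    rw [← h2] at h3
    have hid : ((m : ℝ) + 2) * (m + 1) * m.choose r' = (r' + 1) * ((m + 1 - r' : ℕ) : ℝ) * (m + 2).choose (r' + 1) := by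
      exact_mod_cast choose_id m r' (by omega)
    have e1 : B.card - (r' + 1) = m + 1 - r' := by omega
    rw [e1, hm] at h3
    push_cast at h3
    have hpos : (0 : ℝ) < (r' + 1) * ((m + 1 - r' : ℕ) : ℝ) := by
      have : (0 : ℝ) < ((m + 1 - r' : ℕ) : ℝ) := by exact_mod_cast (by omega : 0 < m + 1 - r')
      positivity
    rw [hm]
    refine le_of_mul_le_mul_left ?_ hpos
    have e2 : (2 * lam * (((m : ℝ) + 2) * ((m : ℝ) + 2 - 1))) * (lam ^ k * m.choose r') =
        2 * (lam ^ (k + 1) * (((m : ℝ) + 2) * (m + 1) * m.choose r')) := by ring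
    rw [e2, hid] at h3
    nlinarith [h3]

lemma two_sums {a b c : ℂ} (ha : ‖a‖ = 1) (hb : ‖b‖ = 1) (hc : ‖c‖ = 1) {c₀ : ℝ} (h0 : 0 ≤ c₀) (h : ‖a + b‖ ≤ 2 - c₀) :
    ‖a + c‖ + ‖b + c‖ ≤ 4 - c₀ / 2 := by
  have h1 : ∀ u v : ℂ, ‖u + v‖ ^ 2 = ‖u‖ ^ 2 + ‖v‖ ^ 2 + 2 * (u * (starRingEnd ℂ) v).re := by
    intro u v
    rw [← Complex.normSq_eq_norm_sq, ← Complex.normSq_eq_norm_sq, ← Complex.normSq_eq_norm_sq, Complex.normSq_add]
  have h2 := h1 a c
  have h3 := h1 b c
  rw [ha, hc] at h2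
  rw [hb, hc] at h3
  have h4 : (a * (starRingEnd ℂ) c).re + (b * (starRingEnd ℂ) c).re ≤ 2 - c₀ := by
    rw [← Complex.add_re, ← add_mul]
    refine (Complex.re_le_norm _).trans ?_
    rw [norm_mul, RCLike.norm_conj, hc, mul_one]
    exact h
  have hc2 : c₀ ≤ 2 := by linarith [norm_nonneg (a + b)]
  have h5 : ‖a + c‖ ^ 2 + ‖b + c‖ ^ 2 ≤ 8 - 2 * c₀ := by linarith
  have h6 : (‖a + c‖ + ‖b + c‖) ^ 2 ≤ (4 - c₀ / 2) ^ 2 := by
    nlinarith [sq_nonneg (‖a + c‖ - ‖b + c‖), sq_nonneg c₀]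
  exact le_of_sq_le_sq h6 (by linarith)

lemma sum_offDiag_le (z : ℕ → ℂ) (hz : ∀ i, ‖z i‖ = 1) {c₀ : ℝ} (h0 : 0 ≤ c₀) (s : ℕ) (B G : Finset ℕ)
    (hG : ∀ i ∈ G, i ∈ B ∧ i + s ∈ B ∧ ‖z i + z (i + s)‖ ≤ 2 - c₀) :
    ∑ x ∈ B.offDiag, ‖z x.1 + z x.2‖ ≤ 2 * (B.card * (B.card - 1)) - c₀ * B.card * G.card / 4 := by
  classical
  have hle : ∀ i j, ‖z i + z j‖ ≤ 2 := fun i j => by
    refine (norm_add_le _ _).trans ?_
    rw [hz, hz]
    norm_num
  have h1 : ∀ j ∈ B, c₀ * G.card / 4 ≤ ∑ i ∈ B, (2 - ‖z i + z j‖) := by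
    intro j _
    have h2 : ∑ i ∈ G, (2 - ‖z i + z j‖) ≤ ∑ i ∈ B, (2 - ‖z i + z j‖) :=
      sum_le_sum_of_subset_of_nonneg (fun i hi => (hG i hi).1) fun i _ _ => by linarith [hle i j]
    have h3 : ∑ i ∈ G, (2 - ‖z (i + s) + z j‖) ≤ ∑ i ∈ B, (2 - ‖z i + z j‖) := by
      have e1 : ∑ i ∈ G, (2 - ‖z (i + s) + z j‖) = ∑ i ∈ G.image (· + s), (2 - ‖z i + z j‖) := by
        rw [sum_image]
        intro a _ b _ h
        simpa using h
      rw [e1]
      refine sum_le_sum_of_subset_of_nonneg ?_ fun i _ _ => by linarith [hle i j]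
      intro i hi
      rw [mem_image] at hi
      obtain ⟨i', hi', rfl⟩ := hi
      exact (hG i' hi').2.1
    have h4 : ∑ i ∈ G, (c₀ / 2) ≤ ∑ i ∈ G, ((2 - ‖z i + z j‖) + (2 - ‖z (i + s) + z j‖)) := by
      apply sum_le_sum
      intro i hi
      have := two_sums (hz i) (hz (i + s)) (hz j) h0 (hG i hi).2.2
      linarith
    rw [sum_add_distrib, sum_const, nsmul_eq_mul] at h4
    linarith
  have h2 : ∑ x ∈ B ×ˢ B, (2 - ‖z x.1 + z x.2‖) = ∑ x ∈ B.offDiag, (2 - ‖z x.1 + z x.2‖) := by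
    symm
    apply sum_subset
    · intro x hx
      rw [mem_offDiag] at hx
      rw [mem_product]
      exact ⟨hx.1, hx.2.1⟩
    · intro x hx hx'
      rw [mem_product] at hx
      rw [mem_offDiag] at hx'
      have h3 : x.1 = x.2 := by
        by_contra h
        exact hx' ⟨hx.1, hx.2, h⟩
      rw [h3, ← two_mul, norm_mul, hz]
      simp
  have h3 : ∑ x ∈ B ×ˢ B, (2 - ‖z x.1 + z x.2‖) ≥ B.card * (c₀ * G.card / 4) := by
    rw [sum_product_right]
    calc (B.card : ℝ) * (c₀ * G.card / 4) = ∑ _j ∈ B, c₀ * G.card / 4 := by rw [sum_const, nsmul_eq_mul]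
      _ ≤ _ := sum_le_sum h1
  rw [h2, sum_sub_distrib, sum_const, nsmul_eq_mul, offDiag_card] at h3
  have h4 : ((B.card * B.card - B.card : ℕ) : ℝ) = B.card * (B.card - 1) := by
    rw [Nat.cast_sub (Nat.le_mul_self _)]
    push_cast
    ring
  rw [h4] at h3
  linarith

/-- the bound for the averages over the `r`-element subsets of `{0, …, n - 1}` -/
theorem PS_bound (z : ℕ → ℂ) (hz : ∀ i, ‖z i‖ = 1) {c₀ : ℝ} (h0 : 0 ≤ c₀) (s n r k : ℕ) (G : Finset ℕ)
    (hG : ∀ i ∈ G, i + s < n ∧ ‖z i + z (i + s)‖ ≤ 2 - c₀) (hk1 : k ≤ r) (hk2 : r + k ≤ n) (hk3 : 8 * k ≤ G.card) :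
    ‖PS z (range n) r‖ ≤ (1 - c₀ * G.card / (16 * n)) ^ k * n.choose r := by
  classical
  rcases Nat.eq_zero_or_pos k with rfl | hk0
  · have := PS_le z hz 1 zero_le_one 0 (range n) r (by omega) (by rw [card_range]; omega) (by
      intro B _ _
      rw [mul_one]
      calc ∑ x ∈ B.offDiag, ‖z x.1 + z x.2‖ ≤ ∑ _x ∈ B.offDiag, (2 : ℝ) := by
            apply sum_le_sum
            intro x _
            refine (norm_add_le _ _).trans ?_
            rw [hz, hz]
            norm_num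
        _ = 2 * (B.card * (B.card - 1)) := by
            rw [sum_const, nsmul_eq_mul, offDiag_card, Nat.cast_sub (Nat.le_mul_self _)]
            push_cast
            ring)
    rw [card_range] at this
    simpa using this
  have hn0 : 0 < n := by omega
  have hnR : (0 : ℝ) < n := by exact_mod_cast hn0
  have hGn : G.card ≤ n := by
    have : G ⊆ range n := fun i hi => mem_range.2 (by have := (hG i hi).1; omega)
    have := card_le_card this
    rwa [card_range] at this
  have hGnR : (G.card : ℝ) ≤ n := by exact_mod_cast hGn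
  have hc2 : c₀ ≤ 2 := by
    have : G.Nonempty := by
      rw [← card_pos]
      omega
    obtain ⟨i, hi⟩ := this
    linarith [norm_nonneg (z i + z (i + s)), (hG i hi).2]
  have hlam : 0 ≤ 1 - c₀ * G.card / (16 * n) := by
    have : c₀ * G.card / (16 * n) ≤ 1 := by
      rw [div_le_one (by positivity)]
      calc c₀ * G.card ≤ 2 * n := mul_le_mul hc2 hGnR (Nat.cast_nonneg _) (by norm_num)
        _ ≤ 16 * n := by linarith
    linarith
  have := PS_le z hz _ hlam k (range n) r hk1 (by rw [card_range]; exact hk2) (by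
    intro B hB hcard
    rw [card_range] at hcard
    have hBn : B.card ≤ n := by
      have := card_le_card hB
      rwa [card_range] at this
    obtain ⟨G', hG'⟩ : ∃ G', G' = G.filter (fun i => i ∈ B ∧ i + s ∈ B) := ⟨_, rfl⟩
    have h1 := sum_offDiag_le z hz h0 s B G' (by
      intro i hi
      rw [hG', mem_filter] at hi
      exact ⟨hi.2.1, hi.2.2, (hG i hi.1).2⟩)
    have h2 : G.card ≤ 2 * G'.card := by
      have h3 : G \ G' ⊆ (range n \ B) ∪ (range n \ B).image (· - s) := by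
        intro i hi
        rw [hG', mem_sdiff, mem_filter] at hi
        have h4 := (hG i hi.1).1
        rw [mem_union, mem_sdiff, mem_range, mem_image]
        by_cases h5 : i ∈ B
        · right
          refine ⟨i + s, ?_, by omega⟩
          rw [mem_sdiff, mem_range]
          exact ⟨h4, fun h6 => hi.2 ⟨hi.1, h5, h6⟩⟩
        · left
          exact ⟨by omega, h5⟩
      have h4 : (range n \ B).card = n - B.card := by
        rw [card_sdiff_of_subset hB, card_range]
      have h5 := (card_le_card h3).trans (card_union_le _ _)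
      have h6 : ((range n \ B).image (· - s)).card ≤ (range n \ B).card := card_image_le
      have h7 : (G \ G').card = G.card - G'.card := by
        rw [card_sdiff_of_subset]
        rw [hG']
        exact filter_subset _ _
      omega
    have h2R : (G.card : ℝ) ≤ 2 * G'.card := by exact_mod_cast h2
    refine h1.trans ?_
    have hBR : (B.card : ℝ) ≤ n := by exact_mod_cast hBn
    have hB0 : (0 : ℝ) ≤ B.card := Nat.cast_nonneg _
    have e1 : 2 * (1 - c₀ * G.card / (16 * n)) * ((B.card : ℝ) * (B.card - 1)) =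
        2 * ((B.card : ℝ) * (B.card - 1)) - c₀ * G.card * B.card / 8 * ((B.card - 1) / n) := by
      field_simp
      ring
    rw [e1]
    have h3 : c₀ * G.card * B.card / 8 * (((B.card : ℝ) - 1) / n) ≤ c₀ * G.card * B.card / 8 * 1 := by
      apply mul_le_mul_of_nonneg_left _ (by positivity)
      rw [div_le_one hnR]
      linarith
    have h4 : c₀ * B.card * (G.card : ℝ) ≤ c₀ * B.card * (2 * G'.card) :=
      mul_le_mul_of_nonneg_left h2R (by positivity)
    nlinarith)
  rw [card_range] at this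
  exact this

end Pool.Agent.K4H92.SP
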