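import Pool.Agent.TH461.AL.Stms3
import Pool.Agent.Y933.KE.DiophP

set_option autoImplicit false

/-! Far cells for the numbers `h₀ + h₁ q ^ s`, uniformly (helper92). -/

namespace Pool.Agent.K4H92.SP
open Finset Real
open Pool.Agent.TH461.AL (Fa)
open Pool.Agent.H706R2 (dZ round_run)
open Pool.Agent.Y933.KE (powers_far)

theorem far_cells {p q : ℕ} (hp : 2 ≤ p) (hq : 2 ≤ q) (hpq : p.Coprime q) (r : ℝ)
    (hrp : ((p : ℝ) + 1) * r ≤ 1) (K N : ℕ) (hN : 1 ≤ N) (κ : ℝ) (hκ : 0 < κ) :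
    ∃ c n₀ : ℕ, ∀ n : ℕ, n₀ ≤ n → ∀ (a L u s : ℕ) (h₀ h₁ : ℤ), a + L ≤ n → κ * n ≤ L → q ^ u ≤ p ^ a → s + c ≤ u →
      |h₀| ≤ (K : ℤ) → |h₁| ≤ (K : ℤ) → h₀ + h₁ * (q : ℤ) ^ s ≠ 0 →
      ∃ i : ℕ, i ≤ L ∧ r ≤ dZ ((p : ℝ) ^ i * (((N * (h₀ + h₁ * (q : ℤ) ^ s) : ℤ) : ℝ) * (p : ℝ) ^ a / (q : ℝ) ^ u)) := by
  have hpR : (2 : ℝ) ≤ p := by exact_mod_cast hp
  have hqR : (2 : ℝ) ≤ q := by exact_mod_cast hq
  have hp0 : (0 : ℝ) < p := by linarith
  have hq0 : (0 : ℝ) < q := by linarith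
  have hlp : 0 < Real.log p := Real.log_pos (by linarith)
  have hlq : 0 < Real.log q := Real.log_pos (by linarith)
  have hr1 : r ≤ 1 := by nlinarith
  obtain ⟨η, hη, L0, H⟩ := powers_far hp hq hpq 2 (1 + log p / log q) (κ * log p) (by positivity)
  obtain ⟨c, hc⟩ : ∃ c : ℕ, N * (2 * K) < q ^ c := ⟨N * (2 * K), Nat.lt_pow_self (by omega)⟩
  have hlim : Filter.Tendsto (fun k : ℕ => exp (η * k)) Filter.atTop Filter.atTop := by
    apply Real.tendsto_exp_atTop.comp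
    exact Filter.Tendsto.const_mul_atTop hη tendsto_natCast_atTop_atTop
  obtain ⟨n1, hn1⟩ := Filter.eventually_atTop.1 (hlim.eventually_ge_atTop ((N * K : ℕ) : ℝ))
  refine ⟨c, L0 + n1, fun n hn a L u s h₀ h₁ haL hL hua hsu hh0 hh1 hne => ?_⟩
  by_contra hcon
  push Not at hcon
  obtain ⟨z, hz⟩ : ∃ z : ℝ, z = ((N * (h₀ + h₁ * (q : ℤ) ^ s) : ℤ) : ℝ) * (p : ℝ) ^ a / (q : ℝ) ^ u := ⟨_, rfl⟩
  rw [← hz] at hcon
  have h1 := round_run hrp L hcon
  have h2 := hcon L le_rfl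
  have h3 : |z - round z| * (p : ℝ) ^ L < r := by
    unfold dZ at h2
    rw [h1] at h2
    have e : (p : ℝ) ^ L * z - (((p : ℤ) ^ L * round z : ℤ) : ℝ) =
        (p : ℝ) ^ L * (z - round z) := by
      push_cast
      ring
    rw [e, abs_mul, abs_of_pos (pow_pos hp0 L), mul_comm] at h2
    exact h2
  have hua' : (u : ℝ) * log q ≤ a * log p := by
    have h4 : (q : ℝ) ^ u ≤ (p : ℝ) ^ a := by exact_mod_cast hua
    have h5 := Real.log_le_log (by positivity) h4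
    rwa [Real.log_pow, Real.log_pow] at h5
  have han : (a : ℝ) ≤ n := by exact_mod_cast (by omega : a ≤ n)
  have hun : (u : ℝ) ≤ log p / log q * n := by
    have h5 : log p / log q * n = n * log p / log q := by ring
    rw [h5, le_div_iff₀ hlq]
    exact hua'.trans (by gcongr)
  have hn0 : (0 : ℝ) ≤ n := Nat.cast_nonneg n
  have hpq0 : 0 ≤ log p / log q * (n : ℝ) := by positivity
  have hsum : ∑ i : Fin 2, ((![N * h₀, N * h₁] : Fin 2 → ℤ) i) * (q : ℤ) ^ ((![0, s] : Fin 2 → ℕ) i) =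
      N * (h₀ + h₁ * (q : ℤ) ^ s) := by
    rw [Fin.sum_univ_two]
    simp
    ring
  have hKh : ∀ x : ℤ, |x| ≤ (K : ℤ) → |((N * x : ℤ) : ℝ)| ≤ exp (η * n) := by
    intro x hx
    refine le_trans ?_ (hn1 n (by omega))
    push_cast
    rw [abs_mul, abs_of_nonneg (Nat.cast_nonneg N : (0 : ℝ) ≤ N)]
    apply mul_le_mul_of_nonneg_left _ (Nat.cast_nonneg N)
    exact_mod_cast hx
  have key := H n (by omega) a u (![0, s]) (![N * h₀, N * h₁]) (round z) ?_ ?_ hua ?_ ?_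
  · rw [hsum] at key
    have e2 : (p : ℝ) ^ a * (((N * (h₀ + h₁ * (q : ℤ) ^ s) : ℤ) : ℝ) / (q : ℝ) ^ u) = z := by
      rw [hz]
      ring
    rw [e2] at key
    have hpL : Real.exp (κ * log p * n) ≤ (p : ℝ) ^ L := by
      rw [← Real.exp_log (pow_pos hp0 L), Real.log_pow]
      apply Real.exp_le_exp.2
      calc κ * log p * n = κ * n * Real.log p := by ring
        _ ≤ L * Real.log p := mul_le_mul_of_nonneg_right hL hlp.le
    have h6 : |z - round z| < Real.exp (-(κ * log p * n)) := by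
      rw [Real.exp_neg, ← one_div, lt_div_iff₀ (Real.exp_pos _)]
      calc |z - round z| * Real.exp (κ * log p * n) ≤ |z - round z| * (p : ℝ) ^ L :=
            mul_le_mul_of_nonneg_left hpL (abs_nonneg _)
        _ < r := h3
        _ ≤ 1 := hr1
    linarith
  · linarith
  · intro i
    have hs : (s : ℝ) ≤ u := by exact_mod_cast (by omega : s ≤ u)
    fin_cases i
    · simp
      positivity
    · simp
      linarith
  · intro i
    fin_cases i
    · simpa using hKh h₀ hh0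
    · simpa using hKh h₁ hh1
  · rw [hsum]
    intro hdvd
    have h4 : |(N : ℤ) * (h₀ + h₁ * (q : ℤ) ^ s)| < (q : ℤ) ^ u := by
      have hq1 : (1 : ℤ) ≤ (q : ℤ) := by exact_mod_cast (by omega : 1 ≤ q)
      have hqs : (1 : ℤ) ≤ (q : ℤ) ^ s := one_le_pow₀ hq1
      have h5 : |h₀ + h₁ * (q : ℤ) ^ s| ≤ 2 * K * (q : ℤ) ^ s := by
        refine (abs_add_le _ _).trans ?_
        rw [abs_mul, abs_of_nonneg (by positivity : (0 : ℤ) ≤ (q : ℤ) ^ s)]
        have h7 : |h₁| * (q : ℤ) ^ s ≤ K * (q : ℤ) ^ s := mul_le_mul_of_nonneg_right hh1 (by positivity)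
        have h8 : (K : ℤ) ≤ K * (q : ℤ) ^ s := le_mul_of_one_le_right (by positivity) hqs
        linarith
      rw [abs_mul, abs_of_nonneg (by positivity : (0 : ℤ) ≤ (N : ℤ))]
      have h6 : (N : ℤ) * (2 * K) < (q : ℤ) ^ c := by exact_mod_cast hc
      calc (N : ℤ) * |h₀ + h₁ * (q : ℤ) ^ s| ≤ N * (2 * K * (q : ℤ) ^ s) :=
            mul_le_mul_of_nonneg_left h5 (by positivity)
        _ = N * (2 * K) * (q : ℤ) ^ s := by ring
        _ < (q : ℤ) ^ c * (q : ℤ) ^ s := by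
            apply mul_lt_mul_of_pos_right h6 (by positivity)
        _ = (q : ℤ) ^ (c + s) := by rw [pow_add]
        _ ≤ (q : ℤ) ^ u := pow_le_pow_right₀ hq1 (by omega)
    have h5 := Int.eq_zero_of_abs_lt_dvd hdvd h4
    rcases mul_eq_zero.1 h5 with h6 | h6
    · have : N = 0 := by exact_mod_cast h6
      omega
    · exact hne h6

end Pool.Agent.K4H92.SP
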