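import Pool.Agent.K4H92.SP.SP2
import Pool.Agent.TH461.AL.Fin

set_option autoImplicit false

/-! Many exponents in an open set, for most places, uniformly in the frequency (helper92). -/

namespace Pool.Agent.K4H92.SP
open Finset Real
open Pool.Agent.TH461.AL (Fa CoreProp)
open Pool.Agent.TH461.AL.Fin (exists_core)
open Pool.Agent.H706R2 (dZ)

open Classical in
lemma block_count (P : ℕ → Prop) (M t₀ T : ℕ) (hM : 1 ≤ M) (β : ℝ) (hβ : 0 ≤ β)
    (h : ∀ s, t₀ ≤ s → s + M ≤ T → (((range M).filter (fun t => P (s + t))).card : ℝ) ≤ β * M) :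
    (((range T).filter P).card : ℝ) ≤ t₀ + M + β * T := by
  have hsub : (range T).filter P ⊆ range t₀ ∪
      ((range ((T - t₀) / M)).biUnion (fun j => ((range M).filter (fun t => P (t₀ + j * M + t))).image (fun t => t₀ + j * M + t)) ∪
      Ico (t₀ + (T - t₀) / M * M) (t₀ + (T - t₀) / M * M + M)) := by
    intro t ht
    rw [mem_filter, mem_range] at ht
    rw [mem_union, mem_union, mem_range]
    rcases lt_or_ge t t₀ with h1 | h1
    · exact Or.inl h1
    right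
    have hd := Nat.div_add_mod (t - t₀) M
    have hm := Nat.mod_lt (t - t₀) (by omega : 0 < M)
    have hc : M * ((t - t₀) / M) = (t - t₀) / M * M := mul_comm _ _
    rcases lt_or_ge ((t - t₀) / M) ((T - t₀) / M) with h2 | h2
    · left
      rw [mem_biUnion]
      refine ⟨(t - t₀) / M, mem_range.2 h2, ?_⟩
      rw [mem_image]
      have e1 : t₀ + (t - t₀) / M * M + (t - t₀) % M = t := by omega
      refine ⟨(t - t₀) % M, ?_, e1⟩
      rw [mem_filter, mem_range]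
      exact ⟨hm, by rw [e1]; exact ht.2⟩
    · right
      rw [mem_Ico]
      have h3 : (t - t₀) / M ≤ (T - t₀) / M := Nat.div_le_div_right (by omega)
      have h4 : (t - t₀) / M = (T - t₀) / M := le_antisymm h3 h2
      rw [h4] at hd hc
      omega
  have h1 := (card_le_card hsub).trans ((card_union_le _ _).trans
    (Nat.add_le_add_left ((card_union_le _ _).trans (Nat.add_le_add_right card_biUnion_le _)) _))
  rw [card_range, Nat.card_Ico] at h1
  have h2 : ((∑ j ∈ range ((T - t₀) / M), (((range M).filter (fun t => P (t₀ + j * M + t))).image (fun t => t₀ + j * M + t)).card : ℕ) : ℝ) ≤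
      β * T := by
    push_cast
    calc ∑ j ∈ range ((T - t₀) / M), ((((range M).filter (fun t => P (t₀ + j * M + t))).image (fun t => t₀ + j * M + t)).card : ℝ)
        ≤ ∑ _j ∈ range ((T - t₀) / M), β * M := by
          apply sum_le_sum
          intro j hj
          rw [mem_range] at hj
          have hle : (j + 1) * M ≤ T - t₀ := (Nat.mul_le_mul_right M hj).trans (Nat.div_mul_le_self _ _)
          have h3 : ((((range M).filter (fun t => P (t₀ + j * M + t))).image (fun t => t₀ + j * M + t)).card : ℝ) ≤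
              ((range M).filter (fun t => P (t₀ + j * M + t))).card := by exact_mod_cast card_image_le
          refine h3.trans (h (t₀ + j * M) (by omega) ?_)
          have : (j + 1) * M = j * M + M := by ring
          omega
      _ = β * ((((T - t₀) / M : ℕ) : ℝ) * M) := by
          rw [sum_const, card_range, nsmul_eq_mul]
          ring
      _ ≤ β * T := by
          apply mul_le_mul_of_nonneg_left _ hβ
          have h3 : (T - t₀) / M * M ≤ T := (Nat.div_mul_le_self _ _).trans (Nat.sub_le _ _)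
          exact_mod_cast h3
  have h3 : (((range T).filter P).card : ℝ) ≤ ((t₀ + ((∑ j ∈ range ((T - t₀) / M), (((range M).filter (fun t => P (t₀ + j * M + t))).image (fun t => t₀ + j * M + t)).card) +
      (t₀ + (T - t₀) / M * M + M - (t₀ + (T - t₀) / M * M))) : ℕ) : ℝ) := by exact_mod_cast h1
  rw [Nat.add_sub_cancel_left] at h3
  push_cast at h3 h2
  linarith

lemma int_count_le (Q : ℤ → Prop) [DecidablePred Q] (x y : ℤ) (n : ℕ) (hx : 0 ≤ x) (hy : y < n) :
    ((Icc x y).filter Q).card ≤ ((range n).filter (fun i : ℕ => Q i)).card := by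
  classical
  have h1 : (Icc x y).filter Q ⊆ ((range n).filter (fun i : ℕ => Q i)).image (fun i : ℕ => (i : ℤ)) := by
    intro i hi
    rw [mem_filter, mem_Icc] at hi
    rw [mem_image]
    refine ⟨i.toNat, ?_, by omega⟩
    rw [mem_filter, mem_range]
    have e1 : ((i.toNat : ℕ) : ℤ) = i := by omega
    exact ⟨by omega, by rw [e1]; exact hi.2⟩
  exact (card_le_card h1).trans card_image_le

open Classical in
/-- For all but few places `t`, many of the numbers `p ^ (N + i) * H * q ^ t / q ^ J`, `i < n - e₀`, lie in the open set `U`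
modulo one. -/
theorem many_in {p q : ℕ} (hp : 2 ≤ p) (hq : 2 ≤ q) (hpq : p.Coprime q) (U : Set UnitAddCircle) (hU : IsOpen U)
    (hne : U.Nonempty) (K e₀ A : ℕ) (τ δ : ℝ) (hτ : 0 < τ) (hτ1 : τ ≤ 1) (hδ : 0 < δ) :
    ∃ κ : ℝ, 0 < κ ∧ ∃ c n₀ : ℕ, ∀ n : ℕ, n₀ ≤ n → ∀ N : ℕ, N ≤ A * n → ∀ (s : ℕ) (h₀ h₁ : ℤ), |h₀| ≤ (K : ℤ) →
      |h₁| ≤ (K : ℤ) → h₀ + h₁ * (q : ℤ) ^ s ≠ 0 →
      (((range (Nat.log q (p ^ (N + n)) + 1 - (s + c))).filter (fun t : ℕ =>
        (((range (n - e₀)).filter (fun i : ℕ => ((((h₀ + h₁ * (q : ℤ) ^ s : ℤ) : ℝ) * (p : ℝ) ^ (N + i) *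
          ((q : ℝ) ^ t / (q : ℝ) ^ (Nat.log q (p ^ (N + n)))) : ℝ) : UnitAddCircle) ∈ U)).card : ℝ) < (κ * n) ^ (1 - τ))).card : ℝ) ≤
        δ * n := by
  have hqR : (2 : ℝ) ≤ q := by exact_mod_cast hq
  have hq0 : (0 : ℝ) < q := by linarith
  have hpR : (2 : ℝ) ≤ p := by exact_mod_cast hp
  have hp0 : (0 : ℝ) < p := by linarith
  obtain ⟨r, D, hr, hrp, -, hcore⟩ := exists_core hp hq hpq
  obtain ⟨B, hB⟩ : ∃ B : ℕ, p ≤ q ^ B := ⟨p, (Nat.lt_pow_self (by omega)).le⟩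
  obtain ⟨δ₁, hδ₁⟩ : ∃ δ₁ : ℝ, δ₁ = δ / (4 * ((B + 1) * (A + 1))) := ⟨_, rfl⟩
  have hδ₁0 : 0 < δ₁ := by rw [hδ₁]; positivity
  obtain ⟨Nm, hN, hcore⟩ := hcore U hU hne τ δ₁ hτ hδ₁0
  obtain ⟨M0, hcore⟩ := hcore 1
  obtain ⟨κ₁, hκ₁⟩ : ∃ κ₁ : ℝ, κ₁ = min δ 1 / (8 * (D + 1) * (B + 1)) := ⟨_, rfl⟩
  have hmin : 0 < min δ 1 := lt_min hδ one_pos
  have hκ₁0 : 0 < κ₁ := by rw [hκ₁]; positivity
  have hκ₁1 : κ₁ * (8 * (D + 1) * (B + 1)) ≤ 1 := by
    have e1 : κ₁ * (8 * (D + 1) * (B + 1)) = min δ 1 := by rw [hκ₁]; field_simp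
    rw [e1]
    exact min_le_right _ _
  have hκ₁2 : κ₁ * (8 * (D + 1) * (B + 1)) ≤ δ := by
    have e1 : κ₁ * (8 * (D + 1) * (B + 1)) = min δ 1 := by rw [hκ₁]; field_simp
    rw [e1]
    exact min_le_left _ _
  obtain ⟨c, n1, hfar⟩ := far_cells hp hq hpq r hrp K Nm hN (κ₁ / 2 / (A + 1)) (by positivity)
  obtain ⟨n2, hn2⟩ := exists_nat_ge (2 * (M0 + 1) / κ₁)
  obtain ⟨n3, hn3⟩ := exists_nat_ge (2 * ((e₀ + 2) * B) / δ)
  refine ⟨κ₁ / 2, by positivity, c, n1 + n2 + n3 + 8 + 2 * (e₀ + 2), fun n hn N hNA s h₀ h₁ hh0 hh1 hHne => ?_⟩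
  obtain ⟨J, hJ⟩ : ∃ J, J = Nat.log q (p ^ (N + n)) := ⟨_, rfl⟩
  rw [← hJ]
  obtain ⟨H, hH⟩ : ∃ H : ℤ, H = h₀ + h₁ * (q : ℤ) ^ s := ⟨_, rfl⟩
  rw [← hH]
  have hJ1 : q ^ J ≤ p ^ (N + n) := by rw [hJ]; exact Nat.pow_log_le_self q (by positivity)
  have hnR : (8 : ℝ) ≤ n := by exact_mod_cast (by omega : 8 ≤ n)
  obtain ⟨M, hM⟩ : ∃ M : ℕ, M = ⌊κ₁ * n⌋₊ := ⟨_, rfl⟩
  have hM1 : (M : ℝ) ≤ κ₁ * n := by rw [hM]; exact Nat.floor_le (by positivity)
  have hn2' : 2 * (M0 + 1) ≤ κ₁ * n := by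
    have : 2 * (M0 + 1) / κ₁ ≤ n := hn2.trans (by exact_mod_cast (by omega : n2 ≤ n))
    rw [div_le_iff₀ hκ₁0] at this
    linarith
  have hM2 : κ₁ / 2 * n ≤ M := by
    have h1 := Nat.lt_floor_add_one (κ₁ * n)
    rw [← hM] at h1
    have : (0 : ℝ) ≤ M0 := Nat.cast_nonneg _
    linarith
  have hNAR : (N : ℝ) + n ≤ (A + 1) * n := by
    have : (N : ℝ) ≤ A * n := by exact_mod_cast hNA
    linarith
  have hM3 : κ₁ / 2 / (A + 1) * ((N + n : ℕ) : ℝ) ≤ M := by
    refine le_trans ?_ hM2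
    push_cast
    calc κ₁ / 2 / (A + 1) * ((N : ℝ) + n) ≤ κ₁ / 2 / (A + 1) * ((A + 1) * n) := by gcongr
      _ = κ₁ / 2 * n := by field_simp
  have hM0M : M0 ≤ M := by
    have h1 := Nat.lt_floor_add_one (κ₁ * n)
    rw [← hM] at h1
    have h2 : (0 : ℝ) ≤ M0 := Nat.cast_nonneg _
    have : (M0 : ℝ) < M + 1 := by linarith
    have h3 : M0 < M + 1 := by exact_mod_cast this
    omega
  have hMpos : 1 ≤ M := by
    have h1 : (0 : ℝ) < M := lt_of_lt_of_le (by positivity) hM2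
    exact_mod_cast h1
  have hDM : 8 * ((D + 1) * (B + 1) * M) ≤ n := by
    have h1 : (8 : ℝ) * ((D + 1) * (B + 1) * M) ≤ n := by
      calc (8 : ℝ) * ((D + 1) * (B + 1) * M) ≤ 8 * ((D + 1) * (B + 1) * (κ₁ * n)) := by gcongr
        _ = (κ₁ * (8 * (D + 1) * (B + 1))) * n := by ring
        _ ≤ 1 * n := by gcongr
        _ = n := one_mul _
    exact_mod_cast h1
  have hDM' : 8 * ((D + 1) * M) ≤ n := by
    refine le_trans ?_ hDM
    have : (D + 1) * M ≤ (D + 1) * (B + 1) * M := by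
      apply Nat.mul_le_mul_right
      exact Nat.le_mul_of_pos_right _ (by omega)
    omega
  obtain ⟨a, ha⟩ : ∃ a : ℕ, a + (e₀ + 2 + (D + 1) * M) = n := ⟨n - (e₀ + 2 + (D + 1) * M), by omega⟩
  obtain ⟨t₀, ht₀⟩ : ∃ t₀ : ℕ, t₀ = (e₀ + 2 + (D + 1) * M) * B := ⟨_, rfl⟩
  obtain ⟨T, hT⟩ : ∃ T, T = J + 1 - (s + c) := ⟨_, rfl⟩
  rw [← hT]
  have hTJ : T ≤ J + 1 := by omega
  have hJB : J ≤ (N + n) * B := by
    have h1 : q ^ J ≤ q ^ ((N + n) * B) := by
      refine hJ1.trans ?_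
      rw [mul_comm, pow_mul]
      exact Nat.pow_le_pow_left hB (N + n)
    exact (Nat.pow_le_pow_iff_right (by omega)).1 h1
  have hcount := block_count (fun t : ℕ =>
        (((range (n - e₀)).filter (fun i : ℕ => (((H : ℝ) * (p : ℝ) ^ (N + i) *
          ((q : ℝ) ^ t / (q : ℝ) ^ J) : ℝ) : UnitAddCircle) ∈ U)).card : ℝ) < (κ₁ / 2 * n) ^ (1 - τ)) M t₀ T hMpos δ₁ hδ₁0.le
    (by
      intro s' hs' hs'T
      have h1 := hcore M hM0M (H : ℝ) ((s' : ℤ) - J) ((N : ℤ) + a) ((N : ℤ) + a + M) (by push_cast; linarith) (by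
        intro t ht
        obtain ⟨u, hu⟩ : ∃ u, u + (s' + t) = J := ⟨J - (s' + t), by omega⟩
        have hua : q ^ u ≤ p ^ (N + a) := by
          have h2 : q ^ u * p ^ (e₀ + 2 + (D + 1) * M) ≤ p ^ (N + a) * p ^ (e₀ + 2 + (D + 1) * M) := by
            calc q ^ u * p ^ (e₀ + 2 + (D + 1) * M) ≤ q ^ u * (q ^ B) ^ (e₀ + 2 + (D + 1) * M) :=
                  Nat.mul_le_mul_left _ (Nat.pow_le_pow_left hB _)
              _ = q ^ u * q ^ t₀ := by rw [← pow_mul, ht₀, mul_comm B]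
              _ ≤ q ^ u * q ^ (s' + t) := Nat.mul_le_mul_left _ (Nat.pow_le_pow_right (by omega) (by omega))
              _ = q ^ J := by rw [← pow_add, hu]
              _ ≤ p ^ (N + n) := hJ1
              _ = p ^ (N + a) * p ^ (e₀ + 2 + (D + 1) * M) := by rw [← pow_add, add_assoc, ha]
          exact Nat.le_of_mul_le_mul_right h2 (by positivity)
        have hDM2 : (D + 1) * M = D * M + M := by ring
        obtain ⟨i, hi, hdz⟩ := hfar (N + n) (by omega) (N + a) M u s h₀ h₁ (by omega) hM3 hua (by omega) hh0 hh1 hHne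
        refine ⟨(N : ℤ) + a + i, by omega, by omega, ?_⟩
        unfold Fa
        have e1 : (Nm : ℝ) * (H : ℝ) * (p : ℝ) ^ ((N : ℤ) + a + i) * (q : ℝ) ^ (((s' : ℤ) - J) + t) =
            (p : ℝ) ^ i * (((Nm * (h₀ + h₁ * (q : ℤ) ^ s) : ℤ) : ℝ) * (p : ℝ) ^ (N + a) / (q : ℝ) ^ u) := by
          have e2 : ((s' : ℤ) - J) + t = -(u : ℤ) := by omega
          have e3 : (N : ℤ) + a + i = ((N + a + i : ℕ) : ℤ) := by push_cast; ring
          rw [e2, e3, zpow_neg, zpow_natCast, zpow_natCast, hH, pow_add (p : ℝ) (N + a) i]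
          push_cast
          field_simp
        rw [e1]
        exact hdz)
      refine le_trans ?_ h1
      apply Nat.cast_le.2
      apply card_le_card
      intro t ht
      rw [mem_filter] at ht ⊢
      refine ⟨ht.1, lt_of_le_of_lt ?_ (lt_of_lt_of_le ht.2 ?_)⟩
      · apply Nat.cast_le.2
        have hDM2 : (D + 1) * M = D * M + M := by ring
        have h3 := int_count_le (fun i : ℤ => (((H : ℝ) * (p : ℝ) ^ ((N : ℤ) + i) * (q : ℝ) ^ (((s' : ℤ) - J) + t) : ℝ) : UnitAddCircle) ∈ U)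
          ((a : ℤ) - D * M) ((a : ℤ) + M + D * M) (n - e₀) (by
            have h4 : D * M ≤ a := by omega
            have h5 : ((D * M : ℕ) : ℤ) ≤ a := by exact_mod_cast h4
            push_cast at h5
            linarith) (by
            have h4 : a + M + D * M < n - e₀ := by omega
            have h5 : ((a + M + D * M : ℕ) : ℤ) < ((n - e₀ : ℕ) : ℤ) := by exact_mod_cast h4
            push_cast at h5
            exact h5)
        have h4 : ((Icc ((N : ℤ) + a - D * M) ((N : ℤ) + a + M + D * M)).filter (fun i : ℤ =>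
            (((H : ℝ) * (p : ℝ) ^ i * (q : ℝ) ^ (((s' : ℤ) - J) + t) : ℝ) : UnitAddCircle) ∈ U)).card ≤
            ((Icc ((a : ℤ) - D * M) ((a : ℤ) + M + D * M)).filter (fun i : ℤ =>
            (((H : ℝ) * (p : ℝ) ^ ((N : ℤ) + i) * (q : ℝ) ^ (((s' : ℤ) - J) + t) : ℝ) : UnitAddCircle) ∈ U)).card := by
          refine card_le_card_of_injOn (fun i => i - N) ?_ ?_
          · intro i hi
            rw [mem_coe, mem_filter, mem_Icc] at hi
            rw [mem_coe, mem_filter, mem_Icc]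
            have e3 : (N : ℤ) + (i - N) = i := by ring
            refine ⟨⟨by linarith [hi.1.1], by linarith [hi.1.2]⟩, ?_⟩
            rw [e3]
            exact hi.2
          · intro i _ j _ hij
            simpa using hij
        refine h4.trans (h3.trans (le_of_eq ?_))
        congr 1
        apply filter_congr
        intro i _
        have e2 : (q : ℝ) ^ (((s' : ℤ) - J) + t) = (q : ℝ) ^ (s' + t) / (q : ℝ) ^ J := by
          have e3 : ((s' : ℤ) - J) + t = ((s' + t : ℕ) : ℤ) - (J : ℤ) := by push_cast; ring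
          rw [e3, zpow_sub₀ hq0.ne', zpow_natCast, zpow_natCast]
        have e4 : (p : ℝ) ^ ((N : ℤ) + i) = (p : ℝ) ^ (N + i) := by
          have e3 : (N : ℤ) + i = ((N + i : ℕ) : ℤ) := by push_cast; ring
          rw [e3, zpow_natCast]
        rw [e2, e4]
      · exact Real.rpow_le_rpow (by positivity) hM2 (by linarith))
  refine hcount.trans ?_
  have h1 : (t₀ : ℝ) ≤ (e₀ + 2) * B + δ * n / 8 := by
    rw [ht₀]
    push_cast
    have h2 : (B : ℝ) * ((D + 1) * M) ≤ (B : ℝ) * ((D + 1) * (κ₁ * n)) := by gcongr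
    have h3 : (B : ℝ) * ((D + 1) * (κ₁ * n)) ≤ (B + 1 : ℝ) * ((D + 1) * (κ₁ * n)) := by
      apply mul_le_mul_of_nonneg_right (by linarith) (by positivity)
    have h4 : (B + 1 : ℝ) * ((D + 1) * (κ₁ * n)) = (κ₁ * (8 * (D + 1) * (B + 1))) * n / 8 := by ring
    have h5 : (κ₁ * (8 * (D + 1) * (B + 1))) * n / 8 ≤ δ * n / 8 := by gcongr
    linarith
  have h2 : (M : ℝ) ≤ δ * n / 8 := by
    have h3 : κ₁ * n ≤ (κ₁ * (8 * (D + 1) * (B + 1))) * n / 8 := by
      have e1 : (κ₁ * (8 * (D + 1) * (B + 1))) * n / 8 = (κ₁ * n) * ((D + 1) * (B + 1)) := by ring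
      rw [e1]
      apply le_mul_of_one_le_right (by positivity)
      have h4 : (0 : ℝ) ≤ D := Nat.cast_nonneg _
      have h5 : (0 : ℝ) ≤ B := Nat.cast_nonneg _
      nlinarith
    have h5 : (κ₁ * (8 * (D + 1) * (B + 1))) * n / 8 ≤ δ * n / 8 := by gcongr
    linarith
  have h3 : δ₁ * (T : ℝ) ≤ δ * n / 4 := by
    have h4 : (T : ℝ) ≤ ((B + 1) * (A + 1)) * n := by
      have h6 : (J : ℝ) ≤ (N + n) * B := by exact_mod_cast hJB
      have h7 : (T : ℝ) ≤ J + 1 := by exact_mod_cast hTJ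
      have h8 : ((N : ℝ) + n) * B ≤ ((A + 1) * n) * B := by gcongr
      have h9 : (1 : ℝ) ≤ (A + 1) * n := by
        have : (0 : ℝ) ≤ A := Nat.cast_nonneg _
        nlinarith
      have h10 : ((B + 1) * (A + 1)) * (n : ℝ) = ((A + 1) * n) * B + (A + 1) * n := by ring
      linarith
    calc δ₁ * (T : ℝ) ≤ δ₁ * (((B + 1) * (A + 1)) * n) := by gcongr
      _ = δ * n / 4 := by rw [hδ₁]; field_simp
  have h4 : (e₀ + 2) * (B : ℝ) ≤ δ * n / 2 := by
    have h5 : 2 * ((e₀ + 2) * B) / δ ≤ n := hn3.trans (by exact_mod_cast (by omega : n3 ≤ n))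
    rw [div_le_iff₀ hδ] at h5
    linarith
  linarith

end Pool.Agent.K4H92.SP
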