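import Pool.Agent.K4H92.SP.SP1
import Pool.Agent.K4H92.SP.SP3
import Pool.Agent.Y933.KD.Leb2

set_option autoImplicit false

/-! The Fourier coefficients of sparse integers (helper92). -/

namespace Pool.Agent.K4H92.SP
open Finset Real
open Pool.Agent.Y933.KD (e e_zero e_add norm_e)

lemma exists_pos_lt {ι : Type*} (s : Finset ι) (f : ι → ℝ) (h : ∀ i ∈ s, 0 < f i) :
    ∃ c : ℝ, 0 < c ∧ ∀ i ∈ s, c < f i := by
  classical
  induction s using Finset.induction_on with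
  | empty => exact ⟨1, one_pos, by simp⟩
  | insert i s _ ih =>
    obtain ⟨c, hc, hc'⟩ := ih (fun j hj => h j (mem_insert_of_mem hj))
    refine ⟨min c (f i / 2), lt_min hc (by have := h i (mem_insert_self _ _); linarith), ?_⟩
    intro j hj
    rw [mem_insert] at hj
    rcases hj with rfl | hj
    · exact (min_le_right _ _).trans_lt (by have := h j (mem_insert_self _ _); linarith)
    · exact (min_le_left _ _).trans_lt (hc' j hj)

lemma fourier_e (j : ℤ) (y : ℝ) : fourier j (y : UnitAddCircle) = e (j * y) := by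
  rw [fourier_coe_apply]
  unfold e
  congr 1
  push_cast
  ring

lemma norm_one_add_lt {x : ℝ} (hx0 : 0 < x) (hx1 : x < 1) : ‖1 + e x‖ < 2 := by
  have h1 : e x ≠ 1 := by
    intro h
    unfold e at h
    rw [Complex.exp_eq_one_iff] at h
    obtain ⟨m, hm⟩ := h
    have h2 : (x : ℂ) = m := by
      have hpi : (2 * π * Complex.I : ℂ) ≠ 0 := by
        refine mul_ne_zero (mul_ne_zero two_ne_zero ?_) Complex.I_ne_zero
        exact_mod_cast pi_ne_zero
      apply mul_left_cancel₀ hpi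
      push_cast at hm
      linear_combination hm
    have h3 : x = m := by exact_mod_cast h2
    rw [h3] at hx0 hx1
    have h4 : 0 < m := by exact_mod_cast hx0
    have h5 : m < 1 := by exact_mod_cast hx1
    omega
  have h2 := norm_e x
  have h3 : ‖1 + e x‖ ^ 2 = 2 + 2 * (e x).re := by
    have h4 : (e x).re ^ 2 + (e x).im ^ 2 = 1 := by
      have := Complex.sq_norm (e x)
      rw [h2, Complex.normSq_apply] at this
      linarith
    rw [Complex.sq_norm, Complex.normSq_apply]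
    simp only [Complex.add_re, Complex.one_re, Complex.add_im, Complex.one_im]
    nlinarith
  have h4 : (e x).re < 1 := by
    have h5 : (e x).re ≤ 1 := (Complex.re_le_norm _).trans h2.le
    rcases lt_or_eq_of_le h5 with h6 | h6
    · exact h6
    · exfalso
      apply h1
      have h7 : (e x).re ^ 2 + (e x).im ^ 2 = 1 := by
        have := Complex.sq_norm (e x)
        rw [h2, Complex.normSq_apply] at this
        linarith
      have h8 : (e x).im = 0 := by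
        rw [h6] at h7
        nlinarith
      exact Complex.ext (by rw [h6]; simp) (by rw [h8]; simp)
  by_contra hcon
  push Not at hcon
  nlinarith [norm_nonneg (1 + e x)]

/-- an open set on which the multiples are not close to `1` -/
lemma exists_U (P : ℕ) : ∃ (c₀ : ℝ) (U : Set UnitAddCircle), 0 < c₀ ∧ IsOpen U ∧ U.Nonempty ∧
    ∀ y : ℝ, (y : UnitAddCircle) ∈ U → ∀ j : ℤ, j ≠ 0 → |j| ≤ (P : ℤ) → ‖1 + e (j * y)‖ ≤ 2 - c₀ := by
  have hP : (0 : ℝ) < (P : ℝ) + 1 := by positivity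
  obtain ⟨c₀, hc0, hc⟩ := exists_pos_lt (Icc 1 P) (fun j : ℕ => 2 - ‖1 + e ((j : ℝ) * (1 / (P + 1)))‖) (by
    intro j hj
    rw [mem_Icc] at hj
    have h1 : (0 : ℝ) < j := by exact_mod_cast hj.1
    have h2 : (j : ℝ) ≤ P := by exact_mod_cast hj.2
    have := norm_one_add_lt (x := (j : ℝ) * (1 / (P + 1))) (by positivity) (by
      rw [mul_one_div, div_lt_one hP]
      linarith)
    linarith)
  refine ⟨c₀, ⋂ j ∈ Icc 1 P, {x : UnitAddCircle | ‖1 + fourier (j : ℤ) x‖ < 2 - c₀}, hc0, ?_, ?_, ?_⟩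
  · apply isOpen_biInter_finset
    intro j _
    apply isOpen_lt _ continuous_const
    fun_prop
  · refine ⟨((1 / ((P : ℝ) + 1) : ℝ) : UnitAddCircle), ?_⟩
    rw [Set.mem_iInter₂]
    intro j hj
    rw [Set.mem_ofPred_eq, fourier_e]
    have := hc j hj
    push_cast
    linarith
  · intro y hy j hj1 hj2
    rw [Set.mem_iInter₂] at hy
    have h0 := Int.natAbs_pos.2 hj1
    have hP2 : (j.natAbs : ℤ) ≤ P := by rw [Int.natCast_natAbs]; exact hj2
    have := hy j.natAbs (mem_Icc.2 ⟨h0, by exact_mod_cast hP2⟩)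
    rw [Set.mem_ofPred_eq, fourier_e] at this
    rcases lt_or_gt_of_ne hj1 with h | h
    · have e1 : ((j.natAbs : ℤ) : ℝ) = -(j : ℝ) := by
        rw [Int.natCast_natAbs, abs_of_neg h]
        push_cast
        ring
      rw [e1] at this
      have e2 : e (-(j : ℝ) * y) = (starRingEnd ℂ) (e (j * y)) := by
        rw [← Pool.Agent.Y933.KD.e_neg]
        congr 1
        ring
      have e3 : ‖1 + e (-(j : ℝ) * y)‖ = ‖1 + e (j * y)‖ := by
        rw [e2, ← RCLike.norm_conj (1 + e (j * y)), map_add, map_one]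
      rw [e3] at this
      exact this.le
    · have e1 : ((j.natAbs : ℤ) : ℝ) = (j : ℝ) := by
        rw [Int.natCast_natAbs, abs_of_pos h]
      rw [e1] at this
      exact this.le

open Classical in
/-- The Fourier coefficients of the sums of `r` numbers `x i * p ^ (N + i)` are small at most places. -/
theorem char_small {p q : ℕ} (hp : 2 ≤ p) (hq : 2 ≤ q) (hpq : p.Coprime q) (K C A : ℕ) (σ Δ δ : ℝ) (hσ : 0 < σ)
    (hΔ : 0 < Δ) (hδ : 0 < δ) :
    ∃ c n₀ : ℕ, ∀ n : ℕ, n₀ ≤ n → ∀ N : ℕ, N ≤ A * n → ∀ r : ℕ, (n : ℝ) ^ σ ≤ r → r + (n : ℝ) ^ σ ≤ n → ∀ x : ℕ → ℤ,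
      (∀ i, x i ≠ 0 ∧ |x i| ≤ (C : ℤ)) → ∀ (s : ℕ) (h₀ h₁ : ℤ), |h₀| ≤ (K : ℤ) → |h₁| ≤ (K : ℤ) →
      h₀ + h₁ * (q : ℤ) ^ s ≠ 0 →
      (((range (Nat.log q (p ^ (N + n)) + 1 - (s + c))).filter (fun t : ℕ => Δ * n.choose r <
        ‖PS (fun i => e ((x i : ℝ) * ((((h₀ + h₁ * (q : ℤ) ^ s : ℤ) : ℝ) * (p : ℝ) ^ (N + i) *
          ((q : ℝ) ^ t / (q : ℝ) ^ (Nat.log q (p ^ (N + n)))))))) (range n) r‖)).card : ℝ) ≤ δ * n := by
  obtain ⟨c₀, U, hc₀, hU, hUne, hUU⟩ := exists_U (C * p ^ C + C)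
  obtain ⟨σ', hσ'⟩ : ∃ σ' : ℝ, σ' = min σ (1 / 2) := ⟨_, rfl⟩
  have hσ'0 : 0 < σ' := by rw [hσ']; exact lt_min hσ (by norm_num)
  have hσ'1 : σ' ≤ 1 / 2 := by rw [hσ']; exact min_le_right _ _
  have hσ'2 : σ' ≤ σ := by rw [hσ']; exact min_le_left _ _
  obtain ⟨κ, hκ, c, n1, hmany⟩ := many_in hp hq hpq U hU hUne K C A (σ' / 2) δ (by positivity) (by linarith) hδ
  have hlim1 : Filter.Tendsto (fun n : ℕ => κ ^ (1 - σ' / 2) / 8 * (n : ℝ) ^ (1 - σ' / 2 - σ')) Filter.atTop Filter.atTop := by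
    apply Filter.Tendsto.const_mul_atTop (by positivity)
    exact (tendsto_rpow_atTop (by linarith)).comp tendsto_natCast_atTop_atTop
  have hlim2 : Filter.Tendsto (fun n : ℕ => c₀ * κ ^ (1 - σ' / 2) / 32 * (n : ℝ) ^ (σ' / 2)) Filter.atTop Filter.atTop := by
    apply Filter.Tendsto.const_mul_atTop (by positivity)
    exact (tendsto_rpow_atTop (by linarith)).comp tendsto_natCast_atTop_atTop
  obtain ⟨n2, hn2⟩ := Filter.eventually_atTop.1 (hlim1.eventually_ge_atTop 1)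
  obtain ⟨n3, hn3⟩ := Filter.eventually_atTop.1 (hlim2.eventually_ge_atTop (-log Δ))
  refine ⟨c, n1 + n2 + n3 + 1, fun n hn N hNA r hr1 hr2 x hx s h₀ h₁ hh0 hh1 hHne => ?_⟩
  refine le_trans ?_ (hmany n (by omega) N hNA s h₀ h₁ hh0 hh1 hHne)
  apply Nat.cast_le.2
  apply card_le_card
  intro t ht
  rw [mem_filter] at ht ⊢
  refine ⟨ht.1, ?_⟩
  by_contra hcon
  push Not at hcon
  refine absurd ht.2 (not_lt.2 ?_)
  obtain ⟨H, hH⟩ : ∃ H : ℝ, H = ((h₀ + h₁ * (q : ℤ) ^ s : ℤ) : ℝ) := ⟨_, rfl⟩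
  obtain ⟨Q, hQ⟩ : ∃ Q : ℝ, Q = (q : ℝ) ^ t / (q : ℝ) ^ (Nat.log q (p ^ (N + n))) := ⟨_, rfl⟩
  rw [← hH, ← hQ] at hcon ⊢
  obtain ⟨G, hG⟩ : ∃ G : Finset ℕ, G = (range (n - C)).filter (fun i : ℕ => ((H * (p : ℝ) ^ (N + i) * Q : ℝ) : UnitAddCircle) ∈ U) := ⟨_, rfl⟩
  rw [← hG] at hcon
  have hn1 : (1 : ℝ) ≤ n := by exact_mod_cast (by omega : 1 ≤ n)
  have hn0 : (0 : ℝ) < n := by linarith
  obtain ⟨k, hk⟩ : ∃ k : ℕ, k = ⌊(n : ℝ) ^ σ'⌋₊ := ⟨_, rfl⟩
  have hk1 : (k : ℝ) ≤ (n : ℝ) ^ σ' := by rw [hk]; exact Nat.floor_le (by positivity)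
  have hk2 : (n : ℝ) ^ σ' / 2 ≤ k := by
    have h1 := Nat.lt_floor_add_one ((n : ℝ) ^ σ')
    rw [← hk] at h1
    have h2 : 1 ≤ (n : ℝ) ^ σ' := Real.one_le_rpow hn1 hσ'0.le
    have h3 : 1 ≤ k := by
      rw [hk]
      exact Nat.le_floor (by simpa using h2)
    have h4 : (1 : ℝ) ≤ k := by exact_mod_cast h3
    linarith
  have hσσ : (n : ℝ) ^ σ' ≤ (n : ℝ) ^ σ := Real.rpow_le_rpow_of_exponent_le hn1 hσ'2
  have hkr : k ≤ r := by
    have : (k : ℝ) ≤ r := by linarith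
    exact_mod_cast this
  have hrk : r + k ≤ n := by
    have : ((r + k : ℕ) : ℝ) ≤ n := by push_cast; linarith
    exact_mod_cast this
  have hg1 : 8 * (n : ℝ) ^ σ' ≤ (κ * n) ^ (1 - σ' / 2) := by
    have h1 := hn2 n (by omega)
    have h2 : (κ * n) ^ (1 - σ' / 2) = κ ^ (1 - σ' / 2) * ((n : ℝ) ^ (1 - σ' / 2 - σ') * (n : ℝ) ^ σ') := by
      rw [Real.mul_rpow hκ.le hn0.le, ← Real.rpow_add hn0]
      congr 2
      ring
    rw [h2]
    have h3 : 8 * (n : ℝ) ^ σ' ≤ 8 * (n : ℝ) ^ σ' * (κ ^ (1 - σ' / 2) / 8 * (n : ℝ) ^ (1 - σ' / 2 - σ')) :=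
      le_mul_of_one_le_right (by positivity) h1
    refine h3.trans (le_of_eq ?_)
    ring
  have hk3 : 8 * k ≤ G.card := by
    have : ((8 * k : ℕ) : ℝ) ≤ G.card := by push_cast; linarith
    exact_mod_cast this
  obtain ⟨z, hz⟩ : ∃ z : ℕ → ℂ, z = fun i => e ((x i : ℝ) * (H * (p : ℝ) ^ (N + i) * Q)) := ⟨_, rfl⟩
  rw [← hz]
  have hz1 : ∀ i, ‖z i‖ = 1 := fun i => by rw [hz]; exact norm_e _
  have hGz : ∀ i ∈ G, i + C < n ∧ ‖z i + z (i + C)‖ ≤ 2 - c₀ := by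
    intro i hi
    rw [hG, mem_filter, mem_range] at hi
    refine ⟨by omega, ?_⟩
    have hpC : (C : ℤ) < (p : ℤ) ^ C := by exact_mod_cast Nat.lt_pow_self (by omega : 1 < p)
    have hx1 := hx i
    have hx2 := hx (i + C)
    obtain ⟨j, hj⟩ : ∃ j : ℤ, j = x (i + C) * (p : ℤ) ^ C - x i := ⟨_, rfl⟩
    have hj1 : j ≠ 0 := by
      intro h0
      have h1 : x (i + C) * (p : ℤ) ^ C = x i := by linarith
      have h2 : |x (i + C)| * (p : ℤ) ^ C = |x i| := by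
        rw [← h1, abs_mul, abs_of_pos (by positivity : (0 : ℤ) < (p : ℤ) ^ C)]
      have h3 : 1 ≤ |x (i + C)| := Int.one_le_abs hx2.1
      nlinarith [hx1.2]
    have hj2 : |j| ≤ ((C * p ^ C + C : ℕ) : ℤ) := by
      rw [hj]
      refine (abs_sub _ _).trans ?_
      rw [abs_mul, abs_of_pos (by positivity : (0 : ℤ) < (p : ℤ) ^ C)]
      push_cast
      have h3 : |x (i + C)| * (p : ℤ) ^ C ≤ C * (p : ℤ) ^ C := mul_le_mul_of_nonneg_right hx2.2 (by positivity)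
      linarith [hx1.2]
    have h1 := hUU _ hi.2 j hj1 hj2
    have h2 : z i + z (i + C) = z i * (1 + e ((j : ℝ) * (H * (p : ℝ) ^ (N + i) * Q))) := by
      rw [hz]
      simp only
      rw [mul_add, mul_one, ← e_add]
      congr 2
      have h3 : (j : ℝ) = x (i + C) * (p : ℝ) ^ C - x i := by rw [hj]; push_cast; ring
      rw [h3, ← add_assoc, pow_add (p : ℝ) (N + i) C]
      ring
    rw [h2, norm_mul, hz1, one_mul]
    exact h1
  refine (PS_bound z hz1 hc₀.le C n r k G hGz hkr hrk hk3).trans ?_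
  apply mul_le_mul_of_nonneg_right _ (Nat.cast_nonneg _)
  have hGn : (G.card : ℝ) ≤ n := by
    have h1 : G.card ≤ (range (n - C)).card := by
      rw [hG]
      exact card_filter_le _ _
    rw [card_range] at h1
    exact_mod_cast (by omega : G.card ≤ n)
  have hc2 : c₀ ≤ 2 := by
    have hGpos : G.Nonempty := by
      rw [← card_pos]
      have : (0 : ℝ) < G.card := lt_of_lt_of_le (by positivity) hcon
      exact_mod_cast this
    obtain ⟨i, hi⟩ := hGpos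
    linarith [norm_nonneg (z i + z (i + C)), (hGz i hi).2]
  have hlam : 0 ≤ 1 - c₀ * G.card / (16 * n) := by
    have : c₀ * G.card / (16 * n) ≤ 1 := by
      rw [div_le_one (by positivity)]
      calc c₀ * G.card ≤ 2 * n := mul_le_mul hc2 hGn (Nat.cast_nonneg _) (by norm_num)
        _ ≤ 16 * n := by linarith
    linarith
  have h1 : 1 - c₀ * G.card / (16 * n) ≤ exp (-(c₀ * G.card / (16 * n))) := Real.one_sub_le_exp_neg _
  refine (pow_le_pow_left₀ hlam h1 k).trans ?_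
  rw [← Real.exp_nat_mul, ← Real.exp_log hΔ]
  apply Real.exp_le_exp.2
  have h2 := hn3 n (by omega)
  have h3 : c₀ * κ ^ (1 - σ' / 2) / 32 * (n : ℝ) ^ (σ' / 2) ≤ k * (c₀ * G.card / (16 * n)) := by
    have h4 : (κ * n) ^ (1 - σ' / 2) = κ ^ (1 - σ' / 2) * ((n : ℝ) * (n : ℝ) ^ (-(σ' / 2))) := by
      rw [Real.mul_rpow hκ.le hn0.le]
      congr 1
      have e1 : (n : ℝ) * (n : ℝ) ^ (-(σ' / 2)) = (n : ℝ) ^ (1 : ℝ) * (n : ℝ) ^ (-(σ' / 2)) := by rw [Real.rpow_one]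
      rw [e1, ← Real.rpow_add hn0]
      congr 1
    have h5 : (n : ℝ) ^ σ' = (n : ℝ) ^ (σ' / 2) * (n : ℝ) ^ (σ' / 2) := by
      rw [← Real.rpow_add hn0]
      congr 1
      ring
    have h6 : (n : ℝ) ^ (-(σ' / 2)) * (n : ℝ) ^ (σ' / 2) = 1 := by
      rw [← Real.rpow_add hn0]
      simp
    calc c₀ * κ ^ (1 - σ' / 2) / 32 * (n : ℝ) ^ (σ' / 2)
        = ((n : ℝ) ^ σ' / 2) * (c₀ * (κ * n) ^ (1 - σ' / 2) / (16 * n)) := by
          rw [h4, h5]
          field_simp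
          linear_combination (-32 : ℝ) * h6
      _ ≤ k * (c₀ * G.card / (16 * n)) := by gcongr
  linarith

end Pool.Agent.K4H92.SP
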