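import Pool.Agent.K4H92.SP.SP4

set_option autoImplicit false

/-! The second moment of the frequencies of words, with an exceptional set of pairs of places (helper92). -/

namespace Pool.Agent.K4H92.SP
open Finset Real MeasureTheory
open Pool.Agent.Y933.KD

/-- the measure with the weights `w i` at the points `x i` -/
noncomputable def wm {ι : Type} (Ω : Finset ι) (w : ι → ℝ) (x : ι → ℝ) : Measure ℝ :=
  ∑ i ∈ Ω, ENNReal.ofReal (w i) • Measure.dirac (x i)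

lemma wm_prob {ι : Type} {Ω : Finset ι} {w : ι → ℝ} (h0 : ∀ i ∈ Ω, 0 ≤ w i)
    (h1 : ∑ i ∈ Ω, w i = 1) (x : ι → ℝ) : IsProbabilityMeasure (wm Ω w x) := by
  refine ⟨?_⟩
  unfold wm
  rw [Measure.finsetSum_apply]
  simp only [Measure.smul_apply, measure_univ, smul_eq_mul, mul_one]
  rw [← ENNReal.ofReal_sum_of_nonneg h0, h1, ENNReal.ofReal_one]

lemma wm_int {ι : Type} {Ω : Finset ι} {w : ι → ℝ} (h0 : ∀ i ∈ Ω, 0 ≤ w i)
    (x : ι → ℝ) {E : Type} [NormedAddCommGroup E] [NormedSpace ℝ E] [CompleteSpace E] (f : ℝ → E) :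
    ∫ t, f t ∂(wm Ω w x) = ∑ i ∈ Ω, w i • f (x i) := by
  unfold wm
  rw [integral_finsetSum_measure]
  · apply sum_congr rfl
    intro i hi
    rw [integral_smul_measure, integral_dirac, ENNReal.toReal_ofReal (h0 i hi)]
  · intro i _
    refine Integrable.smul_measure ?_ ENNReal.ofReal_ne_top
    exact integrable_dirac (by simp)

/-- comparison of the products of functions of two words -/
lemma pair_diff {b w : ℕ} (hb : 1 ≤ b) {G : ℕ → ℝ} (hG : ∀ c, |G c| ≤ 1) (P Q : Measure ℝ)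
    [IsProbabilityMeasure P] [IsProbabilityMeasure Q] (n₁ n₂ : ℕ) {D : ℝ}
    (h : ∀ u v : Fin 2 → ℝ, (∀ i, 0 ≤ u i) → (∀ i, v i ≤ 1) →
      |P.real (Ev (fun _ => b) ![n₁, n₂] u v) - Q.real (Ev (fun _ => b) ![n₁, n₂] u v)| ≤ D) :
    |∫ x, Xw b w G n₁ x * Xw b w G n₂ x ∂P - ∫ x, Xw b w G n₁ x * Xw b w G n₂ x ∂Q| ≤ ((b : ℝ) ^ w) ^ 2 * D := by
  have hb' : (0 : ℝ) < b := by exact_mod_cast hb
  have h1 : ∀ x, Xw b w G n₁ x * Xw b w G n₂ x = ∑ c ∈ range (b ^ w) ×ˢ range (b ^ w),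
      (G c.1 * G c.2) * (Ev (fun _ : Fin 2 => b) ![n₁, n₂] ![(c.1 : ℝ) / (b : ℝ) ^ w, (c.2 : ℝ) / (b : ℝ) ^ w]
        ![((c.1 : ℝ) + 1) / (b : ℝ) ^ w, ((c.2 : ℝ) + 1) / (b : ℝ) ^ w]).indicator (1 : ℝ → ℝ) x := by
    intro x
    unfold Xw
    rw [word_sum hb G n₁, word_sum hb G n₂, sum_mul_sum, sum_product]
    apply sum_congr rfl
    intro c₁ _
    apply sum_congr rfl
    intro c₂ _
    have h2 := prod_cnd (w := w) hb (![(n₁, c₁), (n₂, c₂)] : Fin 2 → ℕ × ℕ) x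
    rw [Fin.prod_univ_two] at h2
    simp only [Matrix.cons_val_zero, Matrix.cons_val_one] at h2
    have e1 : (fun i : Fin 2 => ((![(n₁, c₁), (n₂, c₂)] : Fin 2 → ℕ × ℕ) i).1) = ![n₁, n₂] := by
      funext i
      fin_cases i <;> rfl
    have e2 : (fun i : Fin 2 => (((![(n₁, c₁), (n₂, c₂)] : Fin 2 → ℕ × ℕ) i).2 : ℝ) / (b : ℝ) ^ w) =
        ![(c₁ : ℝ) / (b : ℝ) ^ w, (c₂ : ℝ) / (b : ℝ) ^ w] := by
      funext i
      fin_cases i <;> rfl
    have e3 : (fun i : Fin 2 => ((((![(n₁, c₁), (n₂, c₂)] : Fin 2 → ℕ × ℕ) i).2 : ℝ) + 1) / (b : ℝ) ^ w) =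
        ![((c₁ : ℝ) + 1) / (b : ℝ) ^ w, ((c₂ : ℝ) + 1) / (b : ℝ) ^ w] := by
      funext i
      fin_cases i <;> rfl
    rw [e1, e2, e3] at h2
    rw [← h2]
    ring
  have h2 : ∀ (P2 : Measure ℝ) [IsProbabilityMeasure P2], ∫ x, Xw b w G n₁ x * Xw b w G n₂ x ∂P2 =
      ∑ c ∈ range (b ^ w) ×ˢ range (b ^ w), (G c.1 * G c.2) *
        P2.real (Ev (fun _ : Fin 2 => b) ![n₁, n₂] ![(c.1 : ℝ) / (b : ℝ) ^ w, (c.2 : ℝ) / (b : ℝ) ^ w]
        ![((c.1 : ℝ) + 1) / (b : ℝ) ^ w, ((c.2 : ℝ) + 1) / (b : ℝ) ^ w]) := by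
    intro P2 _
    simp only [h1]
    rw [integral_finsetSum]
    · apply sum_congr rfl
      intro c _
      rw [MeasureTheory.integral_const_mul, integral_indicator_one (measurableSet_Ev _ _ _ _)]
    · intro c _
      refine Integrable.const_mul ?_ _
      exact (integrable_const (1 : ℝ)).indicator (measurableSet_Ev _ _ _ _)
  rw [h2 P, h2 Q, ← sum_sub_distrib]
  refine (Finset.abs_sum_le_sum_abs _ _).trans ?_
  calc _ ≤ ∑ _c ∈ range (b ^ w) ×ˢ range (b ^ w), D := by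
        apply sum_le_sum
        intro c hc
        rw [mem_product, mem_range, mem_range] at hc
        rw [← mul_sub, abs_mul]
        have h3 : |G c.1 * G c.2| ≤ 1 := by
          rw [abs_mul]
          exact mul_le_one₀ (hG _) (abs_nonneg _) (hG _)
        have h4 := h ![(c.1 : ℝ) / (b : ℝ) ^ w, (c.2 : ℝ) / (b : ℝ) ^ w]
          ![((c.1 : ℝ) + 1) / (b : ℝ) ^ w, ((c.2 : ℝ) + 1) / (b : ℝ) ^ w] (by
            intro i
            fin_cases i
            · simp only [Fin.zero_eta, Matrix.cons_val_zero]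
              positivity
            · simp only [Fin.mk_one, Matrix.cons_val_one, Matrix.cons_val_fin_one]
              positivity) (by
            intro i
            fin_cases i
            · simp only [Fin.zero_eta, Matrix.cons_val_zero]
              rw [div_le_one (by positivity)]
              exact_mod_cast hc.1
            · simp only [Fin.mk_one, Matrix.cons_val_one, Matrix.cons_val_fin_one]
              rw [div_le_one (by positivity)]
              exact_mod_cast hc.2)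
        calc _ ≤ 1 * D := mul_le_mul h3 h4 (abs_nonneg _) zero_le_one
          _ = D := one_mul D
    _ = ((b : ℝ) ^ w) ^ 2 * D := by
        rw [sum_const, card_product, card_range, nsmul_eq_mul]
        push_cast
        ring

/-- the centred indicator function of the word `c` -/
noncomputable def cw (b k c : ℕ) (j : ℕ) : ℝ :=
  if j < b ^ k then ((if j = c then 1 else 0) - 1 / (b : ℝ) ^ k) else 0

lemma cw_le {b : ℕ} (hb : 1 ≤ b) (k c j : ℕ) : |cw b k c j| ≤ 1 := by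
  have hb' : (1 : ℝ) ≤ b := by exact_mod_cast hb
  have h1 : 0 < 1 / (b : ℝ) ^ k := by positivity
  have h2 : 1 / (b : ℝ) ^ k ≤ 1 := by
    rw [div_le_one (by positivity)]
    exact one_le_pow₀ hb'
  unfold cw
  split_ifs
  · rw [abs_le]; constructor <;> linarith
  · rw [abs_le]; constructor <;> linarith
  · simp

lemma cw_sum {b k c : ℕ} (hb : 1 ≤ b) (hc : c < b ^ k) : ∑ j ∈ range (b ^ k), cw b k c j = 0 := by
  have hb' : (0 : ℝ) < b := by exact_mod_cast hb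
  have h1 : ∀ j ∈ range (b ^ k), cw b k c j = (if j = c then 1 else 0) - 1 / (b : ℝ) ^ k :=
    fun j hj => by
      unfold cw
      rw [if_pos (mem_range.1 hj)]
  rw [sum_congr rfl h1, sum_sub_distrib, sum_ite_eq', if_pos (mem_range.2 hc), sum_const,
    card_range, nsmul_eq_mul]
  push_cast
  field_simp
  ring

lemma WS_cw {b k : ℕ} (hb : 1 ≤ b) (c s N : ℕ) (x : ℝ) :
    WS b k (cw b k c) s N x =
      ((range N).filter (fun i => wd b k (s + i) x = c)).card - (N : ℝ) / (b : ℝ) ^ k := by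
  unfold WS
  have h1 : ∀ i ∈ range N, cw b k c (wd b k (s + i) x) =
      (if wd b k (s + i) x = c then 1 else 0) - 1 / (b : ℝ) ^ k := by
    intro i _
    unfold cw
    rw [if_pos (wd_lt hb _ _ _)]
  rw [sum_congr rfl h1, sum_sub_distrib, sum_const, card_range, nsmul_eq_mul, card_filter]
  push_cast
  ring

lemma WS_split (B l : ℕ) (G : ℕ → ℝ) (u N : ℕ) (x : ℝ) : WS B l G 0 (u + N) x = WS B l G 0 u x + WS B l G u N x := by
  unfold WS
  rw [sum_range_add]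
  simp only [zero_add]

lemma WS_eq_sum (B l : ℕ) (G : ℕ → ℝ) (N : ℕ) (x : ℝ) : WS B l G 0 N x = ∑ n ∈ range N, Xw B l G n x := by
  unfold WS Xw
  simp only [zero_add]

/-- the second moment -/
lemma second_exc {B l c N : ℕ} (hB : 1 ≤ B) (hc : c < B ^ l) {ι : Type} {Ω : Finset ι} {wt : ι → ℝ}
    (h0 : ∀ i ∈ Ω, 0 ≤ wt i) (h1 : ∑ i ∈ Ω, wt i = 1) (X : ι → ℝ) (bad : Finset (ℕ × ℕ)) {D : ℝ} (hD : 0 ≤ D)
    (h : ∀ n₁ n₂ : ℕ, n₁ < N → n₂ < N → (n₁, n₂) ∉ bad → ∀ u v : Fin 2 → ℝ, (∀ i, 0 ≤ u i) → (∀ i, v i ≤ 1) →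
      |(wm Ω wt X).real (Ev (fun _ => B) ![n₁, n₂] u v) - Leb.real (Ev (fun _ => B) ![n₁, n₂] u v)| ≤ D) :
    ∑ i ∈ Ω, wt i * (WS B l (cw B l c) 0 N (X i)) ^ 2 ≤
      2 * l * N + (N * (B : ℝ) ^ l) ^ 2 * D + 2 * bad.card := by
  classical
  have hPp : IsProbabilityMeasure (wm Ω wt X) := wm_prob h0 h1 _
  have hX1 : ∀ n x, |Xw B l (cw B l c) n x| ≤ 1 := fun n x => cw_le hB _ _ _
  have e1 : ∑ i ∈ Ω, wt i * (WS B l (cw B l c) 0 N (X i)) ^ 2 =
      ∑ n ∈ range N ×ˢ range N, ∫ x, Xw B l (cw B l c) n.1 x * Xw B l (cw B l c) n.2 x ∂(wm Ω wt X) := by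
    simp only [wm_int h0, smul_eq_mul]
    rw [sum_comm]
    apply sum_congr rfl
    intro i _
    rw [WS_eq_sum, sq, sum_mul_sum, sum_product, mul_sum]
    apply sum_congr rfl
    intro n _
    rw [mul_sum]
  have e2 : ∫ x, (∑ n ∈ range N, Xw B l (cw B l c) n x) ^ 2 ∂Leb =
      ∑ n ∈ range N ×ˢ range N, ∫ x, Xw B l (cw B l c) n.1 x * Xw B l (cw B l c) n.2 x ∂Leb := by
    rw [int_sq_sum (K := 1) (cw_le hB l c), sum_product]
  have e3 : ∫ x, (∑ n ∈ range N, Xw B l (cw B l c) n x) ^ 2 ∂Leb ≤ 2 * l * N := by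
    have h3 := sq_sum_le (K := 1) hB (cw_le hB l c) (cw_sum hB hc) (range N)
    rw [card_range] at h3
    refine h3.trans (le_of_eq (by ring))
  have e4 : ∀ n ∈ range N ×ˢ range N,
      ∫ x, Xw B l (cw B l c) n.1 x * Xw B l (cw B l c) n.2 x ∂(wm Ω wt X) ≤
      ∫ x, Xw B l (cw B l c) n.1 x * Xw B l (cw B l c) n.2 x ∂Leb + (((B : ℝ) ^ l) ^ 2 * D + if n ∈ bad then 2 else 0) := by
    rintro ⟨n₁, n₂⟩ hn
    rw [mem_product, mem_range, mem_range] at hn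
    simp only at hn ⊢
    by_cases hbad : (n₁, n₂) ∈ bad
    · rw [if_pos hbad]
      have h3 : ∀ x, |Xw B l (cw B l c) n₁ x * Xw B l (cw B l c) n₂ x| ≤ 1 := by
        intro x
        rw [abs_mul]
        exact mul_le_one₀ (hX1 _ _) (abs_nonneg _) (hX1 _ _)
      have h4 : ∀ (P2 : Measure ℝ) [IsProbabilityMeasure P2],
          |∫ x, Xw B l (cw B l c) n₁ x * Xw B l (cw B l c) n₂ x ∂P2| ≤ 1 := by
        intro P2 _
        have h5 : ‖∫ x, Xw B l (cw B l c) n₁ x * Xw B l (cw B l c) n₂ x ∂P2‖ ≤ 1 * P2.real Set.univ := by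
          refine norm_integral_le_of_norm_le_const (Filter.Eventually.of_forall fun x => ?_)
          rw [Real.norm_eq_abs]
          exact h3 x
        rwa [probReal_univ, mul_one, Real.norm_eq_abs] at h5
      have h5 := abs_le.1 (h4 (wm Ω wt X))
      have h6 := abs_le.1 (h4 Leb)
      have h7 : 0 ≤ ((B : ℝ) ^ l) ^ 2 * D := by positivity
      linarith [h5.2, h6.1]
    · rw [if_neg hbad]
      have h3 := pair_diff (w := l) hB (cw_le hB l c) (wm Ω wt X) Leb n₁ n₂ (h n₁ n₂ hn.1 hn.2 hbad)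
      linarith [(abs_le.1 h3).2]
  rw [e1]
  refine (sum_le_sum e4).trans ?_
  rw [sum_add_distrib, ← e2, sum_add_distrib, sum_const, card_product, card_range, nsmul_eq_mul]
  have e5 : ∑ n ∈ range N ×ˢ range N, (if n ∈ bad then (2 : ℝ) else 0) ≤ 2 * bad.card := by
    rw [← sum_filter, sum_const, nsmul_eq_mul, mul_comm]
    have h3 : ((range N ×ˢ range N).filter (fun n => n ∈ bad)).card ≤ bad.card := by
      apply card_le_card
      intro n hn
      exact (mem_filter.1 hn).2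
    have h4 : ((((range N ×ˢ range N).filter (fun n => n ∈ bad)).card : ℕ) : ℝ) ≤ bad.card := by exact_mod_cast h3
    linarith
  push_cast
  have e6 : (N : ℝ) * N * (((B : ℝ) ^ l) ^ 2 * D) = (N * (B : ℝ) ^ l) ^ 2 * D := by ring
  linarith

/-- all words of at most `w` digits stand with the right frequency in all the windows of the first `n ≤ T0` places, up to
an error `T` -/
def GoodW (B w : ℕ) (T : ℝ) (T0 : ℕ) (x : ℝ) : Prop :=
  ∀ l c n : ℕ, 1 ≤ l → l ≤ w → c < B ^ l → n ≤ T0 → |WS B l (cw B l c) 0 n x| ≤ T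

lemma prefix_grid {B l c n t : ℕ} (hB : 1 ≤ B) (ht : 1 ≤ t) {T : ℝ} (htT : (t : ℝ) ≤ T / 4) (x : ℝ)
    (h : |WS B l (cw B l c) 0 (n / t * t) x| ≤ T / 4) : |WS B l (cw B l c) 0 n x| ≤ T / 2 := by
  have h2 : n = n / t * t + n % t := (Nat.div_add_mod' n t).symm
  rw [h2, WS_split]
  have h3 := abs_WS_le (b := B) (w := l) (cw_le hB l c) (n / t * t) (n % t) x
  have h4 : ((n % t : ℕ) : ℝ) ≤ t := by exact_mod_cast (Nat.mod_lt n (by omega)).le
  refine (abs_add_le _ _).trans ?_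
  linarith

theorem engine (B : ℕ) (hq : 1 ≤ B) (w : ℕ) (A ε : ℝ) (hA : 0 < A) (hε : 0 < ε) :
    ∃ (D ζ : ℝ) (k₀ : ℕ), 0 < D ∧ 0 < ζ ∧ ∀ k : ℕ, k₀ ≤ k → ∀ T0 : ℕ, (T0 : ℝ) ≤ A * k →
      ∀ (ι : Type) (Ω : Finset ι) (wt X : ι → ℝ), (∀ i ∈ Ω, 0 ≤ wt i) → ∑ i ∈ Ω, wt i = 1 →
      ∀ bad : Finset (ℕ × ℕ), (bad.card : ℝ) ≤ ζ * k ^ 2 →
      (∀ n₁ n₂ : ℕ, n₁ < T0 → n₂ < T0 → (n₁, n₂) ∉ bad → ∀ u v : Fin 2 → ℝ, (∀ i, 0 ≤ u i) → (∀ i, v i ≤ 1) →
        |(wm Ω wt X).real (Ev (fun _ => B) ![n₁, n₂] u v) - Leb.real (Ev (fun _ => B) ![n₁, n₂] u v)| ≤ D) →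
      ∀ E : Finset ι, E ⊆ Ω → (∀ i ∈ E, ¬ GoodW B w (ε * k / 2) T0 (X i)) → ∑ i ∈ E, wt i ≤ ε := by
  classical
  have hB0 : (0 : ℝ) < B := by exact_mod_cast hq
  have hB1 : (1 : ℝ) ≤ B := by exact_mod_cast hq
  obtain ⟨I, hI⟩ : ∃ I, I = ⌈8 * A / ε⌉₊ := ⟨_, rfl⟩
  obtain ⟨Q, hQ⟩ : ∃ Q : ℕ, Q = w * (B ^ w * (I + 1)) := ⟨_, rfl⟩
  obtain ⟨C2, hC2⟩ : ∃ C2 : ℝ, C2 = Q * 16 / ε ^ 2 := ⟨_, rfl⟩
  have hC20 : 0 ≤ C2 := by rw [hC2]; positivity
  obtain ⟨D, hD⟩ : ∃ D, D = ε / (3 * (C2 * (A * (B : ℝ) ^ w) ^ 2 + 1)) := ⟨_, rfl⟩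
  have hD0 : 0 < D := by rw [hD]; positivity
  obtain ⟨ζ, hζ⟩ : ∃ ζ, ζ = ε / (6 * (C2 + 1)) := ⟨_, rfl⟩
  have hζ0 : 0 < ζ := by rw [hζ]; positivity
  obtain ⟨k2, hk2⟩ := exists_nat_ge (8 / ε)
  obtain ⟨k3, hk3⟩ := exists_nat_ge (C2 * (2 * w * A) * 3 / ε)
  refine ⟨D, ζ, k2 + k3 + 1, hD0, hζ0, fun k hk T0 hT0 ι Ω wt X h0 h1 bad hbadc H E hE hbad => ?_⟩
  have hkR : (0 : ℝ) < k := by exact_mod_cast (by omega : 0 < k)
  have hk2' : 8 / ε ≤ k := hk2.trans (by exact_mod_cast (by omega : k2 ≤ k))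
  have hk3' : C2 * (2 * w * A) * 3 / ε ≤ k := hk3.trans (by exact_mod_cast (by omega : k3 ≤ k))
  have hεk : 8 ≤ ε * k := by
    rw [div_le_iff₀ hε] at hk2'
    linarith
  obtain ⟨t, ht⟩ : ∃ t, t = ⌊ε * k / 4⌋₊ := ⟨_, rfl⟩
  have ht1 : (t : ℝ) ≤ ε * k / 4 := by rw [ht]; exact Nat.floor_le (by positivity)
  have ht2 : ε * k / 8 ≤ t := by
    have := Nat.lt_floor_add_one (ε * k / 4)
    rw [← ht] at this
    linarith
  have ht3 : 1 ≤ t := by
    have : (0 : ℝ) < t := by linarith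
    exact_mod_cast this
  -- the second moments
  have hmom : ∀ l c i : ℕ, 1 ≤ l → l ≤ w → c < B ^ l → i * t ≤ T0 →
      ∑ m ∈ Ω, wt m * (WS B l (cw B l c) 0 (i * t) (X m)) ^ 2 ≤
        2 * w * A * k + (A * k * (B : ℝ) ^ w) ^ 2 * D + 2 * (ζ * k ^ 2) := by
    intro l c i hl hlw hc hi
    have hN : ((i * t : ℕ) : ℝ) ≤ A * k := by
      refine le_trans ?_ hT0
      exact_mod_cast hi
    have hsm := second_exc (N := i * t) hq hc h0 h1 X bad hD0.le (fun n₁ n₂ hn₁ hn₂ =>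
      H n₁ n₂ (by omega) (by omega))
    refine hsm.trans ?_
    have g1 : 2 * (l : ℝ) * ((i * t : ℕ) : ℝ) ≤ 2 * w * A * k := by
      have h5 : (l : ℝ) ≤ w := by exact_mod_cast hlw
      calc 2 * (l : ℝ) * ((i * t : ℕ) : ℝ) ≤ 2 * w * (A * k) := by
            apply mul_le_mul (by linarith) hN (Nat.cast_nonneg _) (by positivity)
        _ = _ := by ring
    have g2 : (((i * t : ℕ) : ℝ) * (B : ℝ) ^ l) ^ 2 * D ≤ (A * k * (B : ℝ) ^ w) ^ 2 * D := by
      apply mul_le_mul_of_nonneg_right _ hD0.le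
      apply pow_le_pow_left₀ (by positivity)
      exact mul_le_mul hN (pow_le_pow_right₀ hB1 hlw) (by positivity) (by positivity)
    linarith
  -- the exceptional set
  obtain ⟨τ, hτ⟩ : ∃ τ : ℝ, τ = ε * k / 4 := ⟨_, rfl⟩
  have hτ0 : 0 < τ := by rw [hτ]; positivity
  obtain ⟨TT, hTT⟩ : ∃ TT : Finset (ℕ × (ℕ × ℕ)), TT = (Icc 1 w ×ˢ (range (B ^ w) ×ˢ range (I + 1))).filter
      (fun p => p.2.1 < B ^ p.1 ∧ p.2.2 * t ≤ T0) := ⟨_, rfl⟩
  have hTTc : (TT.card : ℝ) ≤ Q := by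
    have h3 : TT.card ≤ Q := by
      rw [hTT, hQ]
      refine (card_filter_le _ _).trans (le_of_eq ?_)
      rw [card_product, card_product, card_range, card_range, Nat.card_Icc, Nat.add_sub_cancel]
    exact_mod_cast h3
  have hone : ∀ m ∈ E, 1 ≤ ∑ p ∈ TT, (WS B p.1 (cw B p.1 p.2.1) 0 (p.2.2 * t) (X m) / τ) ^ 2 := by
    intro m hm
    by_contra hcon
    push Not at hcon
    apply hbad m hm
    intro l c n hl hlw hc hn
    refine prefix_grid (t := t) hq ht3 (T := ε * k) (by linarith) _ ?_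
    by_contra hbig
    push Not at hbig
    have hnt : n / t * t ≤ T0 := (Nat.div_mul_le_self n t).trans hn
    have hmem : (l, (c, n / t)) ∈ TT := by
      rw [hTT, mem_filter, mem_product, mem_product, mem_Icc, mem_range, mem_range]
      refine ⟨⟨⟨hl, hlw⟩, ?_, Nat.lt_succ_of_le ?_⟩, hc, hnt⟩
      · exact hc.trans_le (Nat.pow_le_pow_right hq hlw)
      · have h3 : ((n / t : ℕ) : ℝ) ≤ I := by
          refine (Nat.cast_div_le).trans ?_
          have hnR : (n : ℝ) ≤ A * k := le_trans (by exact_mod_cast hn) hT0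
          have h4 : (n : ℝ) / t ≤ (A * k) / (ε * k / 8) := by
            apply div_le_div₀ (by positivity) hnR (by positivity) ht2
          have h5 : (A * k) / (ε * k / 8) = 8 * A / ε := by field_simp
          rw [h5] at h4
          refine h4.trans ?_
          rw [hI]
          exact Nat.le_ceil _
        exact_mod_cast h3
    have h3 := single_le_sum (f := fun p : ℕ × (ℕ × ℕ) => (WS B p.1 (cw B p.1 p.2.1) 0 (p.2.2 * t) (X m) / τ) ^ 2)
      (fun p _ => sq_nonneg _) hmem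
    simp only at h3
    have h4 : 1 < (WS B l (cw B l c) 0 (n / t * t) (X m) / τ) ^ 2 := by
      rw [← sq_abs, abs_div, abs_of_pos hτ0]
      apply one_lt_pow₀ _ (by norm_num)
      rw [one_lt_div hτ0, hτ]
      exact hbig
    linarith
  calc ∑ m ∈ E, wt m ≤ ∑ m ∈ E, wt m * ∑ p ∈ TT, (WS B p.1 (cw B p.1 p.2.1) 0 (p.2.2 * t) (X m) / τ) ^ 2 := by
        apply sum_le_sum
        intro m hm
        exact le_mul_of_one_le_right (h0 m (hE hm)) (hone m hm)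
    _ ≤ ∑ m ∈ Ω, wt m * ∑ p ∈ TT, (WS B p.1 (cw B p.1 p.2.1) 0 (p.2.2 * t) (X m) / τ) ^ 2 :=
        sum_le_sum_of_subset_of_nonneg hE fun m hm _ => mul_nonneg (h0 m hm) (sum_nonneg fun p _ => sq_nonneg _)
    _ = ∑ p ∈ TT, (1 / τ ^ 2) * ∑ m ∈ Ω, wt m * (WS B p.1 (cw B p.1 p.2.1) 0 (p.2.2 * t) (X m)) ^ 2 := by
        simp only [mul_sum]
        rw [sum_comm]
        apply sum_congr rfl
        intro p _
        apply sum_congr rfl
        intro m _
        rw [div_pow]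
        ring
    _ ≤ ∑ _p ∈ TT, (1 / τ ^ 2) * (2 * w * A * k + (A * k * (B : ℝ) ^ w) ^ 2 * D + 2 * (ζ * k ^ 2)) := by
        apply sum_le_sum
        intro p hp
        rw [hTT, mem_filter, mem_product, mem_product, mem_Icc, mem_range, mem_range] at hp
        apply mul_le_mul_of_nonneg_left _ (by positivity)
        exact hmom p.1 p.2.1 p.2.2 hp.1.1.1 hp.1.1.2 hp.2.1 hp.2.2
    _ = TT.card * ((1 / τ ^ 2) * (2 * w * A * k + (A * k * (B : ℝ) ^ w) ^ 2 * D + 2 * (ζ * k ^ 2))) := by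
        rw [sum_const, nsmul_eq_mul]
    _ ≤ Q * ((1 / τ ^ 2) * (2 * w * A * k + (A * k * (B : ℝ) ^ w) ^ 2 * D + 2 * (ζ * k ^ 2))) := by
        apply mul_le_mul hTTc le_rfl (by positivity) (Nat.cast_nonneg _)
    _ = (C2 * (2 * w * A)) / k + (C2 * (A * (B : ℝ) ^ w) ^ 2) * D + 2 * C2 * ζ := by
        rw [hτ, hC2]
        field_simp
        ring
    _ ≤ ε / 3 + ε / 3 + ε / 3 := by
        refine add_le_add (add_le_add ?_ ?_) ?_
        · rw [div_le_iff₀ hkR]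
          rw [div_le_iff₀ hε] at hk3'
          linarith
        · rw [hD, mul_div_assoc', div_le_div_iff₀ (by positivity) (by norm_num)]
          nlinarith [hC20, hε]
        · rw [hζ, mul_div_assoc', div_le_div_iff₀ (by positivity) (by norm_num)]
          nlinarith [hC20, hε]
    _ = ε := by ring

end Pool.Agent.K4H92.SP
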