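import Pool.Agent.K4H92.SP.SP5

set_option autoImplicit false

/-! Sparse integers: their words in another base (helper92). -/

namespace Pool.Agent.K4H92.SP
open Finset Real MeasureTheory
open Pool.Agent.Y933.KD

/-- all words of at most `w` digits stand with the right frequency, up to an error of `T` places, in all the windows of
the `J` lowest places of the natural number `X` -/
def GoodN (q w : ℕ) (T : ℝ) (J X : ℕ) : Prop :=
  ∀ l j i₀ L : ℕ, 1 ≤ l → l ≤ w → j < q ^ l → i₀ + L + l ≤ J + 1 →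
    |(((range L).filter (fun i => X / q ^ (i₀ + i) % q ^ l = j)).card : ℝ) - L / (q : ℝ) ^ l| ≤ T

lemma wd_nat {b n w J : ℕ} (hb : 1 ≤ b) (h : n + w ≤ J) (X : ℕ) :
    wd b w n ((X : ℝ) / (b : ℝ) ^ J) = X / b ^ (J - (n + w)) % b ^ w := by
  have hb' : (0 : ℝ) < b := by exact_mod_cast hb
  have hx : 0 ≤ (X : ℝ) / (b : ℝ) ^ J := by positivity
  rw [wd_eq_mod hb w n hx]
  congr 1
  have h1 : (b : ℝ) ^ J = (b : ℝ) ^ (n + w) * (b : ℝ) ^ (J - (n + w)) := by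
    rw [← pow_add]
    congr 1
    omega
  have h2 : (b : ℝ) ^ (n + w) * ((X : ℝ) / (b : ℝ) ^ J) =
      (X : ℝ) / ((b ^ (J - (n + w)) : ℕ) : ℝ) := by
    rw [h1]
    push_cast
    field_simp
  rw [h2, Nat.floor_div_natCast, Nat.floor_natCast]

lemma count_nat {q : ℕ} (hq : 1 ≤ q) (j : ℕ) {k s s' L J : ℕ} (h : s' + s + L + k = J + 1) (X : ℕ) :
    ((range L).filter (fun i => wd q k (s' + i) ((X : ℝ) / (q : ℝ) ^ J) = j)).card =
      ((range L).filter (fun i => X / q ^ (s + i) % q ^ k = j)).card := by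
  rw [card_filter, card_filter, ← Finset.sum_range_reflect (fun i => if X / q ^ (s + i) % q ^ k = j then 1 else 0)]
  refine sum_congr rfl fun i hi => ?_
  rw [mem_range] at hi
  rw [wd_nat hq (by omega) X]
  have e1 : J - (s' + i + k) = s + (L - 1 - i) := by omega
  rw [e1]

lemma goodN_of_W {q w J c : ℕ} (hq : 1 ≤ q) {T : ℝ} (hT : 0 ≤ T) (X : ℕ)
    (h : GoodW q w T (J - c) ((X : ℝ) / (q : ℝ) ^ J)) : GoodN q w (2 * (T + c)) J X := by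
  intro l j i₀ L hl hlw hj hJ
  have hc0 : (0 : ℝ) ≤ c := Nat.cast_nonneg c
  have pre : ∀ n : ℕ, n ≤ J → |WS q l (cw q l j) 0 n ((X : ℝ) / (q : ℝ) ^ J)| ≤ T + c := by
    intro n hn
    rcases le_or_gt n (J - c) with h1 | h1
    · have h3 := h l j n hl hlw hj h1
      linarith
    · obtain ⟨d, hd⟩ : ∃ d, n = (J - c) + d := ⟨n - (J - c), by omega⟩
      have hdc : (d : ℝ) ≤ c := by exact_mod_cast (by omega : d ≤ c)
      have h3 := h l j (J - c) hl hlw hj le_rfl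
      have h4 := abs_WS_le (b := q) (w := l) (cw_le hq l j) (J - c) d ((X : ℝ) / (q : ℝ) ^ J)
      rw [hd, WS_split]
      refine (abs_add_le _ _).trans ?_
      linarith
  obtain ⟨s', hs'⟩ : ∃ s', s' + i₀ + L + l = J + 1 := ⟨J + 1 - (i₀ + L + l), by omega⟩
  have h1 := pre s' (by omega)
  have h2 := pre (s' + L) (by omega)
  rw [WS_split] at h2
  have h3 : |WS q l (cw q l j) s' L ((X : ℝ) / (q : ℝ) ^ J)| ≤ 2 * (T + c) := by
    rw [abs_le] at h1 h2 ⊢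
    constructor <;> linarith [h1.1, h1.2, h2.1, h2.2]
  rw [WS_cw hq, count_nat hq j (s := i₀) hs' X] at h3
  exact h3

lemma hat_sparse {n r : ℕ} (hr : r ≤ n) (x : ℕ → ℤ) (p q N J : ℕ) (y : ℤ) (l : ℤ) :
    ‖hat (wm ((range n).powersetCard r) (fun _ => 1 / (n.choose r : ℝ))
      (fun S => ((y + (p : ℤ) ^ N * ∑ i ∈ S, x i * (p : ℤ) ^ i : ℤ) : ℝ) / (q : ℝ) ^ J)) l‖ =
    ‖PS (fun i => e ((x i : ℝ) * (l * (p : ℝ) ^ (N + i) / (q : ℝ) ^ J))) (range n) r‖ / (n.choose r : ℝ) := by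
  have hC : (0 : ℝ) < n.choose r := by exact_mod_cast Nat.choose_pos hr
  unfold hat
  rw [wm_int (fun _ _ => by positivity)]
  have h1 : ∑ S ∈ (range n).powersetCard r, (1 / (n.choose r : ℝ)) •
      e (l * (((y + (p : ℤ) ^ N * ∑ i ∈ S, x i * (p : ℤ) ^ i : ℤ) : ℝ) / (q : ℝ) ^ J)) =
      ((1 / (n.choose r : ℝ) : ℝ) : ℂ) * (e (l * ((y : ℝ) / (q : ℝ) ^ J)) *
        PS (fun i => e ((x i : ℝ) * (l * (p : ℝ) ^ (N + i) / (q : ℝ) ^ J))) (range n) r) := by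
    unfold PS
    rw [mul_sum, mul_sum]
    apply sum_congr rfl
    intro S _
    rw [Complex.real_smul, ← e_sum, ← e_add]
    congr 2
    push_cast
    rw [mul_sum, add_div, sum_div, mul_add, mul_sum]
    congr 1
    apply sum_congr rfl
    intro i _
    rw [pow_add]
    ring
  rw [h1, norm_mul, norm_mul, norm_e, one_mul, Complex.norm_real, Real.norm_eq_abs, abs_of_pos (by positivity)]
  ring

open Classical in
/-- the bad pairs of places are few -/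
lemma bad_pairs {q : ℕ} (K' c T : ℕ) (F : ℤ → ℝ) (Δ β : ℝ) (hβ : 0 ≤ β)
    (h : ∀ (s : ℕ) (h₀ h₁ : ℤ), |h₀| ≤ (K' : ℤ) → |h₁| ≤ (K' : ℤ) → h₀ + h₁ * (q : ℤ) ^ s ≠ 0 →
      (((range (T + 1 - (s + c))).filter (fun t : ℕ => Δ < F ((h₀ + h₁ * (q : ℤ) ^ s) * (q : ℤ) ^ t))).card : ℝ) ≤ β) :
    ((((range (T + 1 - c)) ×ˢ (range (T + 1 - c))).filter (fun n : ℕ × ℕ => ∃ h₀ h₁ : ℤ, |h₀| ≤ (K' : ℤ) ∧ |h₁| ≤ (K' : ℤ) ∧
      h₀ * (q : ℤ) ^ n.1 + h₁ * (q : ℤ) ^ n.2 ≠ 0 ∧ Δ < F (h₀ * (q : ℤ) ^ n.1 + h₁ * (q : ℤ) ^ n.2))).card : ℝ) ≤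
      2 * ((T + 1) * (2 * K' + 1) ^ 2 * β) := by
  obtain ⟨Hs, hHs⟩ : ∃ Hs : Finset ℤ, Hs = Icc (-(K' : ℤ)) K' := ⟨_, rfl⟩
  have hHsc : Hs.card = 2 * K' + 1 := by
    rw [hHs, Int.card_Icc]
    omega
  obtain ⟨V, hV⟩ : ∃ V : ℕ × (ℤ × ℤ) → Finset ℕ, V = fun v => if v.2.1 + v.2.2 * (q : ℤ) ^ v.1 ≠ 0 then
      (range (T + 1 - (v.1 + c))).filter (fun t : ℕ => Δ < F ((v.2.1 + v.2.2 * (q : ℤ) ^ v.1) * (q : ℤ) ^ t)) else ∅ := ⟨_, rfl⟩
  obtain ⟨Par, hPar⟩ : ∃ Par : Finset (ℕ × (ℤ × ℤ)), Par = range (T + 1) ×ˢ (Hs ×ˢ Hs) := ⟨_, rfl⟩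
  have hsub : ((range (T + 1 - c)) ×ˢ (range (T + 1 - c))).filter (fun n : ℕ × ℕ => ∃ h₀ h₁ : ℤ, |h₀| ≤ (K' : ℤ) ∧ |h₁| ≤ (K' : ℤ) ∧
      h₀ * (q : ℤ) ^ n.1 + h₁ * (q : ℤ) ^ n.2 ≠ 0 ∧ Δ < F (h₀ * (q : ℤ) ^ n.1 + h₁ * (q : ℤ) ^ n.2)) ⊆
      (Par.biUnion fun v => (V v).image (fun t => (t, t + v.1))) ∪ (Par.biUnion fun v => (V v).image (fun t => (t + v.1, t))) := by
    rintro ⟨n₁, n₂⟩ hn
    rw [mem_filter, mem_product, mem_range, mem_range] at hn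
    obtain ⟨⟨hn₁, hn₂⟩, h₀, h₁, hh0, hh1, hne, hF⟩ := hn
    simp only at hn₁ hn₂ hne hF
    rw [mem_union, mem_biUnion, mem_biUnion]
    rcases le_total n₁ n₂ with h12 | h12
    · left
      obtain ⟨s, rfl⟩ := Nat.exists_eq_add_of_le h12
      have e1 : h₀ * (q : ℤ) ^ n₁ + h₁ * (q : ℤ) ^ (n₁ + s) = (h₀ + h₁ * (q : ℤ) ^ s) * (q : ℤ) ^ n₁ := by
        rw [pow_add]; ring
      rw [e1] at hne hF
      refine ⟨(s, h₀, h₁), ?_, ?_⟩
      · rw [hPar, mem_product, mem_product, mem_range, hHs, mem_Icc, mem_Icc]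
        exact ⟨by omega, abs_le.1 hh0, abs_le.1 hh1⟩
      · rw [mem_image]
        refine ⟨n₁, ?_, rfl⟩
        rw [hV]
        simp only
        rw [if_pos (left_ne_zero_of_mul hne), mem_filter, mem_range]
        exact ⟨by omega, hF⟩
    · right
      obtain ⟨s, rfl⟩ := Nat.exists_eq_add_of_le h12
      have e1 : h₀ * (q : ℤ) ^ (n₂ + s) + h₁ * (q : ℤ) ^ n₂ = (h₁ + h₀ * (q : ℤ) ^ s) * (q : ℤ) ^ n₂ := by
        rw [pow_add]; ring
      rw [e1] at hne hF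
      refine ⟨(s, h₁, h₀), ?_, ?_⟩
      · rw [hPar, mem_product, mem_product, mem_range, hHs, mem_Icc, mem_Icc]
        exact ⟨by omega, abs_le.1 hh1, abs_le.1 hh0⟩
      · rw [mem_image]
        refine ⟨n₂, ?_, rfl⟩
        rw [hV]
        simp only
        rw [if_pos (left_ne_zero_of_mul hne), mem_filter, mem_range]
        exact ⟨by omega, hF⟩
  have hVc : ∀ v ∈ Par, ((V v).card : ℝ) ≤ β := by
    rintro ⟨s, h₀, h₁⟩ hv
    rw [hPar, mem_product, mem_product, hHs, mem_Icc, mem_Icc] at hv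
    rw [hV]
    simp only
    split_ifs with h3
    · exact h s h₀ h₁ (abs_le.2 hv.2.1) (abs_le.2 hv.2.2) h3
    · rw [card_empty, Nat.cast_zero]
      exact hβ
  have hParc : (Par.card : ℝ) = (T + 1) * (2 * K' + 1) ^ 2 := by
    rw [hPar, card_product, card_product, card_range, hHsc]
    push_cast
    ring
  have h1 : ∀ g : ℕ × (ℤ × ℤ) → ℕ → ℕ × ℕ, (((Par.biUnion fun v => (V v).image (g v)).card : ℕ) : ℝ) ≤
      (T + 1) * (2 * K' + 1) ^ 2 * β := by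
    intro g
    have h2 : (((Par.biUnion fun v => (V v).image (g v)).card : ℕ) : ℝ) ≤ ∑ v ∈ Par, ((V v).card : ℝ) := by
      have h3 : (Par.biUnion fun v => (V v).image (g v)).card ≤ ∑ v ∈ Par, (V v).card :=
        card_biUnion_le.trans (sum_le_sum fun v _ => card_image_le)
      exact_mod_cast h3
    refine h2.trans ((sum_le_sum hVc).trans ?_)
    rw [sum_const, nsmul_eq_mul, hParc]
  have h2 := (card_le_card hsub).trans (card_union_le _ _)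
  have h3 := h1 (fun v t => (t, t + v.1))
  have h4 := h1 (fun v t => (t + v.1, t))
  have h5 : ((((range (T + 1 - c)) ×ˢ (range (T + 1 - c))).filter (fun n : ℕ × ℕ => ∃ h₀ h₁ : ℤ, |h₀| ≤ (K' : ℤ) ∧ |h₁| ≤ (K' : ℤ) ∧
      h₀ * (q : ℤ) ^ n.1 + h₁ * (q : ℤ) ^ n.2 ≠ 0 ∧ Δ < F (h₀ * (q : ℤ) ^ n.1 + h₁ * (q : ℤ) ^ n.2))).card : ℝ) ≤
      (((Par.biUnion fun v => (V v).image (fun t => (t, t + v.1))).card + (Par.biUnion fun v => (V v).image (fun t => (t + v.1, t))).card : ℕ) : ℝ) := by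
    exact_mod_cast h2
  push_cast at h5
  linarith

open Classical in
/-- The words in base `q` of the integers `y + p ^ N * ∑ i ∈ S, x i * p ^ i` are equidistributed for almost all sets `S` of
`r` places. -/
theorem sparse_good {p q : ℕ} (hp : 2 ≤ p) (hq : 2 ≤ q) (hpq : p.Coprime q) (w C A : ℕ) (σ ε : ℝ) (hσ : 0 < σ)
    (hε : 0 < ε) : ∃ n₀ : ℕ, ∀ n : ℕ, n₀ ≤ n → ∀ N : ℕ, N ≤ A * n → ∀ r : ℕ, (n : ℝ) ^ σ ≤ r → r + (n : ℝ) ^ σ ≤ n →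
      ∀ x : ℕ → ℤ, (∀ i, x i ≠ 0 ∧ |x i| ≤ (C : ℤ)) → ∀ y : ℤ,
      ((((range n).powersetCard r).filter (fun S => ∃ m : ℕ, (m : ℤ) = y + (p : ℤ) ^ N * ∑ i ∈ S, x i * (p : ℤ) ^ i ∧
        ¬ GoodN q w (ε * n) (Nat.log q (p ^ (N + n))) m)).card : ℝ) ≤ ε * n.choose r := by
  have hqR : (2 : ℝ) ≤ q := by exact_mod_cast hq
  have hq0 : (0 : ℝ) < q := by linarith
  obtain ⟨B, hB⟩ : ∃ B : ℕ, p ≤ q ^ B := ⟨p, (Nat.lt_pow_self (by omega)).le⟩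
  obtain ⟨D, ζ, n1, hD0, hζ0, Heng⟩ := engine q (by omega) w ((B + 1) * (A + 1)) (ε / 2) (by positivity) (by positivity)
  obtain ⟨K, hK⟩ : ∃ K : ℕ, K = ⌈48 / D⌉₊ + 1 := ⟨_, rfl⟩
  have hK0 : 0 < K := by omega
  have hKR : (0 : ℝ) < K := by exact_mod_cast hK0
  have hK1 : 24 / (K : ℝ) ≤ D / 2 := by
    have h1 : 48 / D ≤ K := by
      rw [hK]
      push_cast
      linarith [Nat.le_ceil (48 / D)]
    rw [div_le_iff₀ hD0] at h1
    rw [div_le_iff₀ hKR]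
    linarith
  obtain ⟨M, hM⟩ : ∃ M : ℝ, M = (2 * (K : ℝ) ^ 3 + 1) ^ 2 + 10 := ⟨_, rfl⟩
  have hM0 : 0 < M := by rw [hM]; positivity
  obtain ⟨Δ, hΔ⟩ : ∃ Δ, Δ = D / (2 * M) := ⟨_, rfl⟩
  have hΔ0 : 0 < Δ := by rw [hΔ]; positivity
  have hΔD : (2 * (K : ℝ) ^ 3 + 1) ^ 2 * Δ + 2 * (12 / K + 5 * Δ) ≤ D := by
    have e3 : M * Δ = D / 2 := by rw [hΔ]; field_simp
    have e4 : (2 * (K : ℝ) ^ 3 + 1) ^ 2 * Δ + 2 * (12 / K + 5 * Δ) = M * Δ + 24 / K := by rw [hM]; ring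
    rw [e4, e3]
    linarith
  obtain ⟨δ, hδ⟩ : ∃ δ : ℝ, δ = ζ / (2 * (((B + 1) * (A + 1)) * (2 * ((K ^ 3 : ℕ) : ℝ) + 1) ^ 2)) := ⟨_, rfl⟩
  have hδ0 : 0 < δ := by rw [hδ]; positivity
  obtain ⟨c, n2, Hchar⟩ := char_small hp hq hpq (K ^ 3) C A σ Δ δ hσ hΔ0 hδ0
  obtain ⟨n3, hn3⟩ := exists_nat_ge (4 * c / ε)
  refine ⟨n1 + n2 + n3 + 1, fun n hn N hNA r hr1 hr2 x hx y => ?_⟩
  have hnR : (1 : ℝ) ≤ n := by exact_mod_cast (by omega : 1 ≤ n)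
  have hrn : r ≤ n := by
    have h1 : (0 : ℝ) ≤ (n : ℝ) ^ σ := by positivity
    have : (r : ℝ) ≤ n := by linarith
    exact_mod_cast this
  have hC : (0 : ℝ) < n.choose r := by exact_mod_cast Nat.choose_pos hrn
  obtain ⟨J, hJ⟩ : ∃ J, J = Nat.log q (p ^ (N + n)) := ⟨_, rfl⟩
  rw [← hJ]
  have hchar := Hchar n (by omega) N hNA r hr1 hr2 x hx
  rw [← hJ] at hchar
  have hJ1 : q ^ J ≤ p ^ (N + n) := by rw [hJ]; exact Nat.pow_log_le_self q (by positivity)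
  have hJBR : (J : ℝ) + 1 ≤ ((B + 1) * (A + 1)) * n := by
    have h1 : q ^ J ≤ q ^ ((N + n) * B) := by
      refine hJ1.trans ?_
      rw [mul_comm, pow_mul]
      exact Nat.pow_le_pow_left hB (N + n)
    have h2 : J ≤ (N + n) * B := (Nat.pow_le_pow_iff_right (by omega)).1 h1
    have h3 : (J : ℝ) ≤ (N + n) * B := by exact_mod_cast h2
    have h4 : (N : ℝ) ≤ A * n := by exact_mod_cast hNA
    have h5 : ((N : ℝ) + n) * B ≤ ((A + 1) * n) * B := by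
      apply mul_le_mul_of_nonneg_right _ (Nat.cast_nonneg _)
      linarith
    have h6 : (1 : ℝ) ≤ (A + 1) * n := by
      have : (0 : ℝ) ≤ A := Nat.cast_nonneg _
      nlinarith
    have h7 : ((B + 1) * (A + 1)) * (n : ℝ) = ((A + 1) * n) * B + (A + 1) * n := by ring
    linarith
  obtain ⟨Ω, hΩ⟩ : ∃ Ω, Ω = (range n).powersetCard r := ⟨_, rfl⟩
  obtain ⟨X, hX⟩ : ∃ X : Finset ℕ → ℝ, X = fun S => ((y + (p : ℤ) ^ N * ∑ i ∈ S, x i * (p : ℤ) ^ i : ℤ) : ℝ) / (q : ℝ) ^ J := ⟨_, rfl⟩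
  obtain ⟨wt, hwt⟩ : ∃ wt : Finset ℕ → ℝ, wt = fun _ => 1 / (n.choose r : ℝ) := ⟨_, rfl⟩
  have hΩc : Ω.card = n.choose r := by rw [hΩ, card_powersetCard, card_range]
  have h0 : ∀ i ∈ Ω, 0 ≤ wt i := fun i _ => by rw [hwt]; positivity
  have h1 : ∑ i ∈ Ω, wt i = 1 := by
    rw [hwt, sum_const, hΩc, nsmul_eq_mul]
    field_simp
  have hPp : IsProbabilityMeasure (wm Ω wt X) := wm_prob h0 h1 _
  obtain ⟨F, hF⟩ : ∃ F : ℤ → ℝ, F = fun l => ‖hat (wm Ω wt X) l‖ := ⟨_, rfl⟩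
  have hbad := bad_pairs (q := q) (K ^ 3) c J F Δ (δ * n) (by positivity) (by
    intro s h₀ h₁ hh0 hh1 hne
    refine le_trans ?_ (hchar s h₀ h₁ hh0 hh1 hne)
    apply Nat.cast_le.2
    apply card_le_card
    intro t ht
    rw [mem_filter] at ht ⊢
    refine ⟨ht.1, ?_⟩
    have h2 := ht.2
    rw [hF, hX, hwt, hΩ] at h2
    simp only at h2
    rw [hat_sparse hrn x p q N J y, lt_div_iff₀ hC] at h2
    refine h2.trans_le (le_of_eq ?_)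
    congr 2
    funext i
    congr 2
    push_cast
    ring)
  obtain ⟨bad, hbadd⟩ : ∃ bad, bad = ((range (J + 1 - c)) ×ˢ (range (J + 1 - c))).filter (fun n : ℕ × ℕ =>
      ∃ h₀ h₁ : ℤ, |h₀| ≤ ((K ^ 3 : ℕ) : ℤ) ∧ |h₁| ≤ ((K ^ 3 : ℕ) : ℤ) ∧
      h₀ * (q : ℤ) ^ n.1 + h₁ * (q : ℤ) ^ n.2 ≠ 0 ∧ Δ < F (h₀ * (q : ℤ) ^ n.1 + h₁ * (q : ℤ) ^ n.2)) := ⟨_, rfl⟩
  rw [← hbadd] at hbad
  have hbadc : (bad.card : ℝ) ≤ ζ * n ^ 2 := by
    refine hbad.trans ?_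
    calc 2 * (((J : ℝ) + 1) * (2 * ((K ^ 3 : ℕ) : ℝ) + 1) ^ 2 * (δ * n))
        ≤ 2 * ((((B + 1) * (A + 1)) * n) * (2 * ((K ^ 3 : ℕ) : ℝ) + 1) ^ 2 * (δ * n)) := by gcongr
      _ = ζ * n ^ 2 := by
          rw [hδ]
          field_simp
  have hT0 : ((J - c : ℕ) : ℝ) ≤ ((B + 1) * (A + 1)) * n := by
    have : ((J - c : ℕ) : ℝ) ≤ J := by exact_mod_cast Nat.sub_le _ _
    linarith
  have key := Heng n (by omega) (J - c) hT0 (Finset ℕ) Ω wt X h0 h1 bad hbadc (by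
    intro n₁ n₂ hn₁ hn₂ hnb u v hu hv
    have htest := test hK0 (wm Ω wt X) Leb hat_Leb (fun i : Fin 2 => (q : ℤ) ^ ((![n₁, n₂] : Fin 2 → ℕ) i))
      (fun i => pow_ne_zero _ (by omega)) Δ (by
        intro h hh hne
        by_contra hcon
        push Not at hcon
        apply hnb
        rw [hbadd, mem_filter, mem_product, mem_range, mem_range]
        rw [Fin.sum_univ_two] at hne hcon
        simp only [Matrix.cons_val_zero, Matrix.cons_val_one] at hne hcon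
        refine ⟨⟨by omega, by omega⟩, h 0, h 1, ?_, ?_, hne, ?_⟩
        · push_cast
          exact hh 0
        · push_cast
          exact hh 1
        · rw [hF]
          exact hcon) hΔ0.le u v hu hv
    rw [integral_ind (wm Ω wt X) (fun _ => q) ![n₁, n₂] u v, integral_ind Leb (fun _ => q) ![n₁, n₂] u v] at htest
    refine htest.trans ?_
    push_cast
    exact hΔD)
  have key2 := key (Ω.filter (fun S => ∃ m : ℕ, (m : ℤ) = y + (p : ℤ) ^ N * ∑ i ∈ S, x i * (p : ℤ) ^ i ∧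
    ¬ GoodN q w (ε * n) J m)) (filter_subset _ _) (by
    intro S hS hgood
    rw [mem_filter] at hS
    obtain ⟨m, hm, hbadm⟩ := hS.2
    apply hbadm
    rw [hX] at hgood
    simp only at hgood
    rw [← hm, Int.cast_natCast] at hgood
    have h2 := goodN_of_W (c := c) (by omega) (by positivity) m hgood
    intro l j i₀ L hl hlw hj hi
    refine (h2 l j i₀ L hl hlw hj hi).trans ?_
    have h3 : 4 * c / ε ≤ n := hn3.trans (by exact_mod_cast (by omega : n3 ≤ n))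
    rw [div_le_iff₀ hε] at h3
    linarith)
  rw [hwt, sum_const, nsmul_eq_mul, mul_one_div, div_le_iff₀ hC] at key2
  rw [← hΩ]
  refine key2.trans ?_
  nlinarith

end Pool.Agent.K4H92.SP
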