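import Pool.Agent.K4H92.SP.SP6

set_option autoImplicit false

/-! All the digits of the sum, and the integers with a given number of nonzero digits (helper92). -/

namespace Pool.Agent.K4H92.SP
open Finset Real

/-- the number of digits `b` as a number of places -/
lemma count_digits_eq {q : ℕ} (hq : 2 ≤ q) (b : ℕ) : ∀ X : ℕ, (Nat.digits q X).count b =
    ((range (Nat.digits q X).length).filter (fun i => X / q ^ i % q = b)).card := by
  intro X
  induction X using Nat.strong_induction_on with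
  | _ X ih =>
    rcases Nat.eq_zero_or_pos X with rfl | hX
    · simp
    · have h1 := ih (X / q) (Nat.div_lt_self hX (by omega))
      rw [Nat.digits_def' (by omega) hX, List.count_cons, List.length_cons, h1, card_filter,
        card_filter, Finset.sum_range_succ']
      congr 1
      · refine sum_congr rfl fun i _ => ?_
        rw [pow_succ', Nat.div_div_eq_div_mul]
      · simp

/-- all the digits, from the windows -/
lemma count_of_good {q w J X : ℕ} (hq : 2 ≤ q) (hw : 1 ≤ w) {T : ℝ} (hg : GoodN q w T J X) {d : ℕ}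
    (hX : X < q ^ (J + d)) (b : ℕ) (hb : b < q) :
    |((Nat.digits q X).count b : ℝ) - J / q| ≤ 2 * T + d := by
  have hqR : (2 : ℝ) ≤ q := by exact_mod_cast hq
  have hq0 : (0 : ℝ) < q := by linarith
  have hT : 0 ≤ T := (abs_nonneg _).trans (hg 1 0 0 0 le_rfl hw (by positivity) (by omega))
  obtain ⟨ℓ, hℓ⟩ : ∃ ℓ, ℓ = (Nat.digits q X).length := ⟨_, rfl⟩
  have hcount : (Nat.digits q X).count b = ((range ℓ).filter (fun i => X / q ^ i % q = b)).card := by
    rw [hℓ]
    exact count_digits_eq hq b X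
  have hXℓ : X < q ^ ℓ := by
    rw [hℓ]
    exact Nat.lt_base_pow_length_digits (by omega)
  rcases le_or_gt ℓ J with h1 | h1
  · have h2 := hg 1 b 0 ℓ le_rfl hw (by rw [pow_one]; exact hb) (by omega)
    simp only [pow_one, zero_add] at h2
    have h3 := hg 1 0 ℓ (J - ℓ) le_rfl hw (by positivity) (by omega)
    simp only [pow_one] at h3
    have h4 : (range (J - ℓ)).filter (fun i => X / q ^ (ℓ + i) % q = 0) = range (J - ℓ) := by
      apply filter_true_of_mem
      intro i _
      rw [Nat.div_eq_of_lt, Nat.zero_mod]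
      exact hXℓ.trans_le (Nat.pow_le_pow_right (by omega) (by omega))
    rw [h4, card_range, Nat.cast_sub h1] at h3
    have h5 : ((J : ℝ) - ℓ) * (1 - 1 / q) ≤ T := by
      have := (abs_le.1 h3).2
      have e1 : ((J : ℝ) - ℓ) * (1 - 1 / q) = (J - ℓ) - (J - ℓ) / q := by ring
      linarith
    have h6 : (1 : ℝ) / q ≤ 1 / 2 := one_div_le_one_div_of_le (by norm_num) hqR
    have h7 : (0 : ℝ) ≤ (J : ℝ) - ℓ := by
      have : (ℓ : ℝ) ≤ J := by exact_mod_cast h1
      linarith
    have h8 : ((J : ℝ) - ℓ) * (1 / 2) ≤ T := by nlinarith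
    have h9 : ((J : ℝ) - ℓ) / q ≤ T := by
      have : ((J : ℝ) - ℓ) / q = (J - ℓ) * (1 / q) := by ring
      nlinarith
    have h10 : (0 : ℝ) ≤ ((J : ℝ) - ℓ) / q := by positivity
    have h11 : ((J : ℝ) - ℓ) / q = J / q - ℓ / q := by ring
    have hd : (0 : ℝ) ≤ d := Nat.cast_nonneg d
    rw [hcount]
    rw [abs_le] at h2 ⊢
    constructor <;> linarith [h2.1, h2.2]
  · have h2 := hg 1 b 0 J le_rfl hw (by rw [pow_one]; exact hb) (by omega)
    simp only [pow_one, zero_add] at h2
    have hℓd : ℓ ≤ J + d := by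
      rw [hℓ, Nat.digits_length_le_iff (by omega)]
      exact hX
    have h3 : ((range J).filter (fun i => X / q ^ i % q = b)).card ≤ ((range ℓ).filter (fun i => X / q ^ i % q = b)).card :=
      card_le_card (filter_subset_filter _ (range_subset_range.2 h1.le))
    have h4 : ((range ℓ).filter (fun i => X / q ^ i % q = b)).card ≤ ((range J).filter (fun i => X / q ^ i % q = b)).card + d := by
      have h5 : (range ℓ).filter (fun i => X / q ^ i % q = b) ⊆
          (range J).filter (fun i => X / q ^ i % q = b) ∪ Finset.Ico J ℓ := by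
        intro i hi
        rw [mem_filter, mem_range] at hi
        rw [mem_union, mem_filter, mem_range, mem_Ico]
        rcases lt_or_ge i J with h6 | h6
        · exact Or.inl ⟨h6, hi.2⟩
        · exact Or.inr ⟨h6, hi.1⟩
      refine (card_le_card h5).trans ((card_union_le _ _).trans ?_)
      rw [Nat.card_Ico]
      omega
    have h3R : ((((range J).filter (fun i => X / q ^ i % q = b)).card : ℕ) : ℝ) ≤
        ((range ℓ).filter (fun i => X / q ^ i % q = b)).card := by exact_mod_cast h3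
    have h4R : ((((range ℓ).filter (fun i => X / q ^ i % q = b)).card : ℕ) : ℝ) ≤
        ((range J).filter (fun i => X / q ^ i % q = b)).card + d := by exact_mod_cast h4
    rw [hcount]
    rw [abs_le] at h2 ⊢
    constructor <;> linarith [h2.1, h2.2]

/-- the frequencies among all the digits -/
lemma freq_of_good {p q : ℕ} (hp : 2 ≤ p) (hq : 2 ≤ q) {ε : ℝ} (hε : 0 < ε) :
    ∃ n₀ : ℕ, ∀ n : ℕ, n₀ ≤ n → ∀ w : ℕ, 1 ≤ w → ∀ X : ℕ, (X : ℝ) ≤ (p : ℝ) ^ ((1 + ε) * n) →
      GoodN q w (ε * Real.logb q p / 4 * n) (Nat.log q (p ^ n)) X → ∀ b : ℕ, b < q →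
      |((Nat.digits q X).count b : ℝ) / (n * Real.logb q p) - 1 / q| ≤ 2 * ε := by
  have hqR : (2 : ℝ) ≤ q := by exact_mod_cast hq
  have hq0 : (0 : ℝ) < q := by linarith
  have hpR : (2 : ℝ) ≤ p := by exact_mod_cast hp
  have hp0 : (0 : ℝ) < p := by linarith
  have hlq : 0 < log (q : ℝ) := Real.log_pos (by linarith)
  have hlp : 0 < log (p : ℝ) := Real.log_pos (by linarith)
  obtain ⟨lam, hlam⟩ : ∃ lam, lam = Real.logb q p := ⟨_, rfl⟩
  have hlam' : lam = log p / log q := hlam
  have hlam0 : 0 < lam := by rw [hlam']; positivity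
  obtain ⟨n1, hn1⟩ := exists_nat_ge (8 / (ε * lam))
  refine ⟨n1 + 1, fun n hn w hw X hX hg b hb => ?_⟩
  rw [← hlam] at hg ⊢
  have hnR : (1 : ℝ) ≤ n := by exact_mod_cast (by omega : 1 ≤ n)
  obtain ⟨J, hJ⟩ : ∃ J, J = Nat.log q (p ^ n) := ⟨_, rfl⟩
  rw [← hJ] at hg
  have hJ1 : q ^ J ≤ p ^ n := by rw [hJ]; exact Nat.pow_log_le_self q (by positivity)
  have hJ2 : p ^ n < q ^ (J + 1) := by rw [hJ]; exact Nat.lt_pow_succ_log_self (by omega) _
  have hJR1 : (J : ℝ) ≤ n * lam := by
    have h1 : (q : ℝ) ^ J ≤ (p : ℝ) ^ n := by exact_mod_cast hJ1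
    have h2 := Real.log_le_log (by positivity) h1
    rw [Real.log_pow, Real.log_pow] at h2
    rw [hlam', mul_div_assoc', le_div_iff₀ hlq]
    exact h2
  have hJR2 : n * lam ≤ J + 1 := by
    have h1 : (p : ℝ) ^ n ≤ (q : ℝ) ^ (J + 1) := by exact_mod_cast hJ2.le
    have h2 := Real.log_le_log (by positivity) h1
    rw [Real.log_pow, Real.log_pow] at h2
    push_cast at h2
    rw [hlam', mul_div_assoc', div_le_iff₀ hlq]
    exact h2
  obtain ⟨d, hd⟩ : ∃ d : ℕ, d = ⌊ε * n * lam⌋₊ + 2 := ⟨_, rfl⟩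
  have hd1 : (d : ℝ) ≤ ε * n * lam + 2 := by
    rw [hd]
    push_cast
    have := Nat.floor_le (by positivity : 0 ≤ ε * n * lam)
    linarith
  have hd2 : ε * n * lam + 1 < d := by
    rw [hd]
    push_cast
    have := Nat.lt_floor_add_one (ε * n * lam)
    linarith
  have hXd : X < q ^ (J + d) := by
    have h1 : (X : ℝ) < (q : ℝ) ^ (J + d) := by
      refine hX.trans_lt ?_
      rw [← Real.log_lt_log_iff (by positivity) (by positivity), Real.log_rpow hp0, Real.log_pow]
      have h2 : (1 + ε) * n * log p = ((1 + ε) * n * lam) * log q := by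
        rw [hlam']
        field_simp
      rw [h2]
      apply mul_lt_mul_of_pos_right _ hlq
      push_cast
      linarith
    exact_mod_cast h1
  have h1 := count_of_good hq hw hg hXd b hb
  have h2 : 8 ≤ ε * (n * lam) := by
    have h3 : 8 / (ε * lam) ≤ n := hn1.trans (by exact_mod_cast (by omega : n1 ≤ n))
    rw [div_le_iff₀ (by positivity)] at h3
    linarith
  have h3 : |((Nat.digits q X).count b : ℝ) - n * lam / q| ≤ 2 * ε * (n * lam) := by
    have h4 : (J : ℝ) / q ≤ n * lam / q := by gcongr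
    have h5 : n * lam / q - 1 ≤ (J : ℝ) / q := by
      have h6 : n * lam / q ≤ (J + 1) / q := by gcongr
      have h7 : ((J : ℝ) + 1) / q = J / q + 1 / q := by ring
      have h8 : (1 : ℝ) / q ≤ 1 := by
        rw [div_le_one hq0]
        linarith
      linarith
    rw [abs_le] at h1 ⊢
    constructor <;> linarith [h1.1, h1.2]
  have hnl : 0 < (n : ℝ) * lam := by positivity
  have e1 : ((Nat.digits q X).count b : ℝ) / (n * lam) - 1 / q = ((Nat.digits q X).count b - n * lam / q) / (n * lam) := by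
    field_simp
  rw [e1, abs_div, abs_of_pos hnl, div_le_iff₀ hnl]
  exact h3

lemma sum_digits (p : ℕ) (m : ℕ) : ∀ n : ℕ, ∑ i ∈ range n, m / p ^ i % p * p ^ i = m % p ^ n := by
  intro n
  induction n with
  | zero => simp [Nat.mod_one]
  | succ n ih =>
    rw [sum_range_succ, ih, Nat.mod_pow_succ]
    ring

lemma sum_lt {p : ℕ} (hp : 1 ≤ p) (a : ℕ → ℕ) (ha : ∀ i, a i < p) : ∀ n : ℕ, ∑ i ∈ range n, a i * p ^ i < p ^ n := by
  intro n
  induction n with
  | zero => simp
  | succ n ih =>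
    rw [sum_range_succ, pow_succ]
    have h1 : a n * p ^ n + p ^ n ≤ p ^ n * p := by
      have h2 : (a n + 1) * p ^ n ≤ p * p ^ n := Nat.mul_le_mul_right _ (ha n)
      calc a n * p ^ n + p ^ n = (a n + 1) * p ^ n := by ring
        _ ≤ p * p ^ n := h2
        _ = p ^ n * p := by ring
    omega

lemma digit_sum {p : ℕ} (hp : 1 ≤ p) (a : ℕ → ℕ) (ha : ∀ i, a i < p) {n j : ℕ} (hj : j < n) :
    (∑ i ∈ range n, a i * p ^ i) / p ^ j % p = a j := by
  obtain ⟨d, rfl⟩ : ∃ d, n = j + 1 + d := ⟨n - (j + 1), by omega⟩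
  rw [sum_range_add, sum_range_succ]
  have h1 : ∑ i ∈ range d, a (j + 1 + i) * p ^ (j + 1 + i) = p ^ j * (p * ∑ i ∈ range d, a (j + 1 + i) * p ^ i) := by
    rw [mul_sum, mul_sum]
    apply sum_congr rfl
    intro i _
    ring
  have h2 : ∑ i ∈ range j, a i * p ^ i + a j * p ^ j + p ^ j * (p * ∑ i ∈ range d, a (j + 1 + i) * p ^ i) =
      ∑ i ∈ range j, a i * p ^ i + p ^ j * (a j + p * ∑ i ∈ range d, a (j + 1 + i) * p ^ i) := by ring
  rw [h1, h2, Nat.add_mul_div_left _ _ (by positivity), Nat.div_eq_of_lt (sum_lt hp a ha j), zero_add,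
    Nat.add_mul_mod_self_left, Nat.mod_eq_of_lt (ha j)]

end Pool.Agent.K4H92.SP
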