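import Pool.Agent.K4H92.SP.SP7

set_option autoImplicit false

/-! The integers with a given number of nonzero digits (helper92). -/

namespace Pool.Agent.K4H92.SP
open Finset Real

/-- a sequence of digits extended by ones -/
def ext1 {n : ℕ} (x : Fin n → ℕ) (i : ℕ) : ℕ := if h : i < n then x ⟨i, h⟩ else 1

/-- the places of the nonzero digits in base `p`, among the `n` lowest ones -/
def supp (p n m : ℕ) : Finset ℕ := (range n).filter (fun i => m / p ^ i % p ≠ 0)

lemma ext1_digit {p n : ℕ} (hp : 2 ≤ p) {x : Fin n → ℕ} (hx : x ∈ Fintype.piFinset fun _ : Fin n => Icc 1 (p - 1)) (i : ℕ) :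
    1 ≤ ext1 x i ∧ ext1 x i < p := by
  rw [Fintype.mem_piFinset] at hx
  unfold ext1
  split_ifs with h
  · have := hx ⟨i, h⟩
    rw [mem_Icc] at this
    omega
  · omega

lemma sum_over {p n : ℕ} {S : Finset ℕ} (hS : S ⊆ range n) (x : ℕ → ℕ) :
    ∑ i ∈ S, x i * p ^ i = ∑ i ∈ range n, (if i ∈ S then x i else 0) * p ^ i := by
  rw [← sum_subset hS (f := fun i => (if i ∈ S then x i else 0) * p ^ i)]
  · apply sum_congr rfl
    intro i hi
    rw [if_pos hi]
  · intro i _ hi
    rw [if_neg hi, zero_mul]

lemma digit_over {p n : ℕ} (hp : 1 ≤ p) {S : Finset ℕ} (hS : S ⊆ range n) (x : ℕ → ℕ) (hx : ∀ i, x i < p) {j : ℕ}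
    (hj : j < n) : (∑ i ∈ S, x i * p ^ i) / p ^ j % p = if j ∈ S then x j else 0 := by
  rw [sum_over hS, digit_sum hp (fun i => if i ∈ S then x i else 0) (fun i => by
    split_ifs
    · exact hx i
    · omega) hj]

lemma supp_over {p n : ℕ} (hp : 1 ≤ p) {S : Finset ℕ} (hS : S ⊆ range n) (x : ℕ → ℕ) (hx : ∀ i, 1 ≤ x i ∧ x i < p) :
    supp p n (∑ i ∈ S, x i * p ^ i) = S := by
  ext j
  unfold supp
  rw [mem_filter, mem_range]
  constructor
  · rintro ⟨h1, h2⟩
    rw [digit_over hp hS x (fun i => (hx i).2) h1] at h2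
    by_contra h3
    rw [if_neg h3] at h2
    exact h2 rfl
  · intro h
    have h1 := mem_range.1 (hS h)
    refine ⟨h1, ?_⟩
    rw [digit_over hp hS x (fun i => (hx i).2) h1, if_pos h]
    have := (hx j).1
    omega

lemma sum_supp (p n m : ℕ) : ∑ i ∈ supp p n m, m / p ^ i % p * p ^ i = m % p ^ n := by
  rw [← sum_digits]
  apply sum_subset
  · exact filter_subset _ _
  · intro i hi hi'
    unfold supp at hi'
    rw [mem_filter] at hi'
    have : m / p ^ i % p = 0 := by
      by_contra h
      exact hi' ⟨hi, h⟩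
    rw [this, zero_mul]

open Classical in
lemma fibre_card {p n r : ℕ} (hp : 2 ≤ p) {m : ℕ} (hm : m < p ^ n) (hr : (supp p n m).card = r) :
    (((range n).powersetCard r ×ˢ Fintype.piFinset fun _ : Fin n => Icc 1 (p - 1)).filter
      (fun v => ∑ i ∈ v.1, ext1 v.2 i * p ^ i = m)).card = (p - 1) ^ (n - r) := by
  have hsub : supp p n m ⊆ range n := filter_subset _ _
  have h1 : ((range n).powersetCard r ×ˢ Fintype.piFinset fun _ : Fin n => Icc 1 (p - 1)).filter
      (fun v => ∑ i ∈ v.1, ext1 v.2 i * p ^ i = m) =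
      {supp p n m} ×ˢ Fintype.piFinset (fun i : Fin n => if (i : ℕ) ∈ supp p n m then {m / p ^ (i : ℕ) % p} else Icc 1 (p - 1)) := by
    ext ⟨S, x⟩
    rw [mem_filter, mem_product, mem_product, mem_singleton, mem_powersetCard]
    simp only
    constructor
    · rintro ⟨⟨⟨hS, hSc⟩, hx⟩, hsum⟩
      have hx' := ext1_digit hp hx
      have h2 := supp_over (by omega) hS (ext1 x) hx'
      rw [hsum] at h2
      refine ⟨h2.symm, ?_⟩
      rw [Fintype.mem_piFinset] at hx ⊢
      intro i
      split_ifs with hi
      · rw [mem_singleton, ← hsum, digit_over (by omega) hS (ext1 x) (fun i => (hx' i).2) i.2, if_pos (h2 ▸ hi)]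
        unfold ext1
        rw [dif_pos i.2]
      · exact hx i
    · rintro ⟨rfl, hx⟩
      have hx2 : x ∈ Fintype.piFinset fun _ : Fin n => Icc 1 (p - 1) := by
        rw [Fintype.mem_piFinset] at hx ⊢
        intro i
        have := hx i
        split_ifs at this with hi
        · rw [mem_singleton] at this
          rw [this, mem_Icc]
          unfold supp at hi
          rw [mem_filter] at hi
          have h3 := Nat.mod_lt (m / p ^ (i : ℕ)) (by omega : 0 < p)
          omega
        · exact this
      refine ⟨⟨⟨hsub, hr⟩, hx2⟩, ?_⟩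
      have h3 : ∑ i ∈ supp p n m, ext1 x i * p ^ i = ∑ i ∈ supp p n m, m / p ^ i % p * p ^ i := by
        apply sum_congr rfl
        intro i hi
        have hin := mem_range.1 (hsub hi)
        rw [Fintype.mem_piFinset] at hx
        have := hx ⟨i, hin⟩
        simp only at this
        rw [if_pos hi, mem_singleton] at this
        unfold ext1
        rw [dif_pos hin, this]
      rw [h3, sum_supp, Nat.mod_eq_of_lt hm]
  rw [h1, card_product, card_singleton, one_mul, Fintype.card_piFinset]
  have h2 : ∀ i : Fin n, (if (i : ℕ) ∈ supp p n m then ({m / p ^ (i : ℕ) % p} : Finset ℕ) else Icc 1 (p - 1)).card =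
      if (i : ℕ) ∈ supp p n m then 1 else p - 1 := by
    intro i
    split_ifs
    · exact card_singleton _
    · rw [Nat.card_Icc]
      omega
  rw [prod_congr rfl fun i _ => h2 i, Fin.prod_univ_eq_prod_range (fun i => if i ∈ supp p n m then 1 else p - 1) n]
  rw [prod_ite, prod_const_one, one_mul, prod_const]
  congr 1
  have h3 : (range n).filter (fun i => i ∉ supp p n m) = range n \ supp p n m := by
    ext i
    rw [mem_filter, mem_sdiff]
  rw [h3, card_sdiff_of_subset hsub, card_range, hr]

open Classical in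
/-- counting integers with `r` nonzero digits through sets of places and sequences of digits -/
lemma count_pairs {p n r : ℕ} (hp : 2 ≤ p) (Bad : ℕ → Prop) :
    (((range n).powersetCard r ×ˢ Fintype.piFinset fun _ : Fin n => Icc 1 (p - 1)).filter
      (fun v => Bad (∑ i ∈ v.1, ext1 v.2 i * p ^ i))).card =
    ((range (p ^ n)).filter (fun m => (supp p n m).card = r ∧ Bad m)).card * (p - 1) ^ (n - r) := by
  have h1 := card_eq_sum_card_fiberwise (s := ((range n).powersetCard r ×ˢ Fintype.piFinset fun _ : Fin n => Icc 1 (p - 1)).filter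
      (fun v => Bad (∑ i ∈ v.1, ext1 v.2 i * p ^ i)))
    (t := (range (p ^ n)).filter (fun m => (supp p n m).card = r ∧ Bad m)) (f := fun v => ∑ i ∈ v.1, ext1 v.2 i * p ^ i) (by
      rintro ⟨S, x⟩ hv
      rw [mem_coe, mem_filter, mem_product, mem_powersetCard] at hv
      simp only at hv ⊢
      have hx' := ext1_digit hp hv.1.2
      rw [mem_coe, mem_filter, mem_range]
      refine ⟨?_, ?_, hv.2⟩
      · rw [sum_over hv.1.1.1]
        apply sum_lt (by omega)
        intro i
        split_ifs
        · exact (hx' i).2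
        · omega
      · rw [supp_over (by omega) hv.1.1.1 (ext1 x) hx']
        exact hv.1.1.2)
  rw [h1, ← smul_eq_mul, ← Finset.sum_const]
  apply sum_congr rfl
  intro m hm
  rw [mem_filter, mem_range] at hm
  rw [← fibre_card hp hm.1 hm.2.1, filter_filter]
  congr 1
  apply filter_congr
  intro v _
  constructor
  · exact fun h => h.2
  · intro h
    exact ⟨h ▸ hm.2.2, h⟩

open Classical in
/-- almost all integers with `r` nonzero digits -/
lemma almost_nonzero {p n r : ℕ} (hp : 2 ≤ p) (Bad : ℕ → Prop) {ε : ℝ}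
    (h : ∀ x : ℕ → ℕ, (∀ i, 1 ≤ x i ∧ x i < p) →
      ((((range n).powersetCard r).filter (fun S => Bad (∑ i ∈ S, x i * p ^ i))).card : ℝ) ≤ ε * n.choose r) :
    (((range (p ^ n)).filter (fun m => (supp p n m).card = r ∧ Bad m)).card : ℝ) ≤
      ε * ((range (p ^ n)).filter (fun m => (supp p n m).card = r)).card := by
  have h1 := count_pairs (p := p) (n := n) (r := r) hp Bad
  have h2 := count_pairs (p := p) (n := n) (r := r) hp (fun _ => True)
  simp only [and_true, filter_true] at h2
  rw [card_product, card_powersetCard, card_range] at h2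
  have h3 : ((((range n).powersetCard r ×ˢ Fintype.piFinset fun _ : Fin n => Icc 1 (p - 1)).filter
      (fun v => Bad (∑ i ∈ v.1, ext1 v.2 i * p ^ i))).card : ℝ) ≤
      (Fintype.piFinset fun _ : Fin n => Icc 1 (p - 1)).card * (ε * n.choose r) := by
    rw [card_filter, sum_product_right]
    push_cast
    rw [← nsmul_eq_mul, ← Finset.sum_const]
    apply sum_le_sum
    intro x hx
    have h4 := h (ext1 x) (ext1_digit hp hx)
    rw [card_filter] at h4
    push_cast at h4
    exact h4
  have hpos : (0 : ℝ) < (((p - 1) ^ (n - r) : ℕ) : ℝ) := by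
    have : 0 < (p - 1) ^ (n - r) := by
      apply Nat.pow_pos
      omega
    exact_mod_cast this
  rw [h1] at h3
  have h5 : ((n.choose r * (Fintype.piFinset fun _ : Fin n => Icc 1 (p - 1)).card : ℕ) : ℝ) =
      ((((range (p ^ n)).filter (fun m => (supp p n m).card = r)).card * (p - 1) ^ (n - r) : ℕ) : ℝ) := by
    rw [h2]
  rw [Nat.cast_mul] at h3
  rw [Nat.cast_mul, Nat.cast_mul] at h5
  refine le_of_mul_le_mul_right ?_ hpos
  refine h3.trans (le_of_eq ?_)
  linear_combination ε * h5

end Pool.Agent.K4H92.SP
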